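import Pool.Agent.Helper52.BPq.Lay

set_option autoImplicit false

/-!
The slow percolating set for threshold 3 and its certificate.
-/

namespace Pool.Agent.Helper52.BPq

open Set
open Pool.Agent.TH479.BP (ee enc enc_flip enc_lt isH memG memP hb isP0 isP1 isP3 isG0 isG1 isG3 isGE
  tab_out tab_P tab_adj tab_guard tab_ord tab_disj tab_types)

variable {m a s : ℕ}

/-- vertices -/
abbrev V (m a s : ℕ) := W m a s × (Fin 8 → Z m)

/-- Hamming distance of vertices -/
def dV (v v' : V m a s) : ℕ := dW v.1 v'.1 + hammingDist v.2 v'.2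

/-- the graph -/
def GV (m a s : ℕ) : SimpleGraph (V m a s) where
  Adj v v' := dV v v' = 1
  symm := ⟨by
    intro v v' h
    unfold dV at h ⊢
    rw [dW_comm, hammingDist_comm]
    exact h⟩
  loopless := ⟨by
    intro v h
    unfold dV at h
    rw [dW_self, hammingDist_self] at h
    exact absurd h (by decide)⟩

lemma adj_iff {v v' : V m a s} : (GV m a s).Adj v v' ↔
    (dW v.1 v'.1 = 1 ∧ v.2 = v'.2) ∨ (v.1 = v'.1 ∧ hammingDist v.2 v'.2 = 1) := by
  change dV v v' = 1 ↔ _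
  unfold dV
  rw [← hammingDist_eq_zero (x := v.2), ← dW_eq_zero (w := v.1)]
  omega

/-- splitting of neighbours -/
lemma nbr_le (w : W m a s) (ℓ : Fin 8 → Z m) (S : Set (V m a s)) :
    ((GV m a s).neighborSet (w, ℓ) ∩ S).ncard ≤ {w' | dW w w' = 1 ∧ (w', ℓ) ∈ S}.ncard +
      {ℓ' | hammingDist ℓ ℓ' = 1 ∧ (w, ℓ') ∈ S}.ncard := by
  have h : (GV m a s).neighborSet (w, ℓ) ∩ S ⊆
      ((fun w' => (w', ℓ)) '' {w' | dW w w' = 1 ∧ (w', ℓ) ∈ S}) ∪
      ((fun ℓ' => (w, ℓ')) '' {ℓ' | hammingDist ℓ ℓ' = 1 ∧ (w, ℓ') ∈ S}) := by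
    rintro ⟨w', ℓ'⟩ ⟨h1, h2⟩
    have h1' : (GV m a s).Adj (w, ℓ) (w', ℓ') := h1
    rw [adj_iff] at h1'
    rcases h1' with ⟨h3, h4⟩ | ⟨h3, h4⟩
    · have h4' : ℓ = ℓ' := h4
      subst h4'
      left
      exact ⟨w', ⟨h3, h2⟩, rfl⟩
    · have h3' : w = w' := h3
      subst h3'
      right
      exact ⟨ℓ', ⟨h4, h2⟩, rfl⟩
  have h1 := Set.ncard_le_ncard h (Set.toFinite _)
  have h2 := Set.ncard_union_le ((fun w' => ((w', ℓ) : V m a s)) '' {w' | dW w w' = 1 ∧ (w', ℓ) ∈ S})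
      ((fun ℓ' => ((w, ℓ') : V m a s)) '' {ℓ' | hammingDist ℓ ℓ' = 1 ∧ (w, ℓ') ∈ S})
  have h3 := Set.ncard_image_le (f := fun w' => ((w', ℓ) : V m a s))
    (Set.toFinite {w' | dW w w' = 1 ∧ (w', ℓ) ∈ S})
  have h4 := Set.ncard_image_le (f := fun ℓ' => ((w, ℓ') : V m a s))
    (Set.toFinite {ℓ' | hammingDist ℓ ℓ' = 1 ∧ (w, ℓ') ∈ S})
  omega

namespace Dat

variable (C : Dat m a s)

lemma exists_wst : ∃ w : W m a s, ¬ C.X0 w ∧ ¬ C.X3 w := by
  obtain ⟨r, hr0, hr1⟩ : ∃ r : Fin s → Z m, r ≠ 0 ∧ r ≠ C.u 1 := by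
    have key : ∀ c : Z m, c ≠ 0 → (Pi.single (⟨0, C.hs⟩ : Fin s) c : Fin s → Z m) ≠ 0 := by
      intro c hc h
      have := congrFun h ⟨0, C.hs⟩
      simp at this
      exact hc this
    by_cases h : (Pi.single (⟨0, C.hs⟩ : Fin s) 1 : Fin s → Z m) = C.u 1
    · refine ⟨Pi.single ⟨0, C.hs⟩ 2, key 2 zm2.1, ?_⟩
      rw [← h]
      intro h'
      have := congrFun h' ⟨0, C.hs⟩
      simp only [Pi.single_eq_same] at this
      exact zm2.2 this
    · exact ⟨_, key 1 one_ne_zero, h⟩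
  refine ⟨(C.yy 0, C.h (C.yy 0) + r, 0), ?_, ?_⟩
  · rintro ⟨t, ht, h1, h2⟩
    have hR : C.R ((C.yy 0, C.h (C.yy 0) + r, 0) : W m a s) = r := by simp [R]
    rw [hR] at h2
    have ht0 : t = 0 := C.uinj _ _ ht (by have := C.hM1; omega) (by rw [C.u0]; exact h1.symm)
    subst ht0
    rcases h2 with h2 | ⟨-, h2⟩
    · rw [C.u0] at h2; exact hr0 h2
    · exact hr1 h2
  · have hR : C.R ((C.yy 0, C.h (C.yy 0) + r, 0) : W m a s) = r := by simp [R]
    rintro (⟨h1, -⟩ | ⟨y', h1, h2, h3⟩)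
    · rw [hR] at h1; exact hr0 h1
    · rw [hR] at h3; exact hr0 h3

/-- position of the seeds -/
noncomputable def wst : W m a s := C.exists_wst.choose

lemma wst_X0 : ¬ C.X0 C.wst := C.exists_wst.choose_spec.1
lemma wst_X3 : ¬ C.X3 C.wst := C.exists_wst.choose_spec.2
lemma wst_X1 : ¬ C.X1 C.wst := fun h => C.wst_X0 (C.X1_X0 h)

/-- the final junction -/
noncomputable def vend : W m a s := (C.yy (C.N - 1), C.h (C.yy (C.N - 1)), 0)

open Classical in
noncomputable def b0 (w : W m a s) : Bool := decide (C.X0 w)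
open Classical in
noncomputable def b1 (w : W m a s) : Bool := decide (C.X1 w)
open Classical in
noncomputable def b3 (w : W m a s) : Bool := decide (C.X3 w)
open Classical in
noncomputable def bE (w : W m a s) : Bool := decide (w = C.vend)

/-- guards and full layers -/
def mG (v : V m a s) : Prop :=
  ∃ b, v.2 = io b ∧ memG (enc b) (C.b0 v.1) (C.b1 v.1) (C.b3 v.1) (C.bE v.1) = true
/-- on the slow path -/
def mP (v : V m a s) : Prop :=
  ∃ b, v.2 = io b ∧ memP (enc b) (C.b0 v.1) (C.b1 v.1) (C.b3 v.1) = true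
/-- seeds -/
def mS (v : V m a s) : Prop := v.1 = C.wst ∧ ∃ l, v.2 = sl l

lemma mG_io {w : W m a s} {b : Fin 8 → ZMod 2} :
    C.mG (w, io b) ↔ memG (enc b) (C.b0 w) (C.b1 w) (C.b3 w) (C.bE w) = true := by
  constructor
  · rintro ⟨b', h1, h2⟩
    have := io_inj h1
    subst this
    exact h2
  · intro h; exact ⟨b, rfl, h⟩

lemma mP_io {w : W m a s} {b : Fin 8 → ZMod 2} :
    C.mP (w, io b) ↔ memP (enc b) (C.b0 w) (C.b1 w) (C.b3 w) = true := by
  constructor
  · rintro ⟨b', h1, h2⟩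
    have := io_inj h1
    subst this
    exact h2
  · intro h; exact ⟨b, rfl, h⟩

lemma not_mS_io {w : W m a s} {b : Fin 8 → ZMod 2} : ¬ C.mS (w, io b) := by
  rintro ⟨-, l, h⟩
  exact sl_ne_io l b h.symm

lemma not_mG_of_bg {v : V m a s} (h : bg v.2 ≠ ∅) : ¬ C.mG v := by
  rintro ⟨b, h1, -⟩
  rw [h1, bg_io] at h
  exact h rfl

lemma not_mP_of_bg {v : V m a s} (h : bg v.2 ≠ ∅) : ¬ C.mP v := by
  rintro ⟨b, h1, -⟩
  rw [h1, bg_io] at h
  exact h rfl

lemma vend_R : C.R C.vend = 0 := by simp [R, vend]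

lemma vend_X1 : C.X1 C.vend := Or.inl ⟨C.vend_R, rfl⟩

lemma cls (w : W m a s) : (C.bE w = true → C.b1 w = true) ∧
    (C.b1 w = true → C.b0 w = true ∧ C.b3 w = true) := by
  constructor
  · intro h
    have h' : w = C.vend := by simpa [bE] using h
    rw [h']
    simpa [b1] using C.vend_X1
  · intro h
    have h' : C.X1 w := by simpa [b1] using h
    exact ⟨by simpa [b0] using C.X1_X0 h', by simpa [b3] using C.X1_X3 h'⟩

lemma wst_b : C.b0 C.wst = false ∧ C.b1 C.wst = false ∧ C.b3 C.wst = false ∧ C.bE C.wst = false := by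
  refine ⟨by simpa [b0] using C.wst_X0, by simpa [b1] using C.wst_X1, by simpa [b3] using C.wst_X3, ?_⟩
  simp only [bE, decide_eq_false_iff_not]
  intro h
  exact C.wst_X1 (h ▸ C.vend_X1)

/-- the starting point -/
noncomputable def v0 : V m a s :=
  ((C.yy 0, C.u (C.M - 1) + C.h (C.yy 0), C.u (C.M - 1)), io 0)

/-- the initially infected set -/
def A0 : Set (V m a s) := {v | C.mG v ∨ C.mS v ∨ v = C.v0}

/-- time on the path -/
noncomputable def fp (n : ℕ) (w : W m a s) : ℕ := if isP3 n = true then C.f3 w else C.f0 w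

open Classical in
/-- the certificate -/
noncomputable def ff (v : V m a s) : ℕ :=
  if C.mG v ∨ C.mS v then 0 else if C.mP v then C.fp (enc (bc v.2)) v.1 else C.N * C.M0 + 1

lemma not_mG_of_mP {w : W m a s} {b : Fin 8 → ZMod 2} (h : C.mP (w, io b)) (w' : W m a s) :
    ¬ C.mG (w', io b) := by
  rw [mP_io] at h
  have := tab_disj ⟨enc b, enc_lt _⟩ _ _ _ h (C.b0 w') (C.b1 w') (C.b3 w') (C.bE w')
  rw [mG_io, this]
  simp

lemma ff_path {w : W m a s} {b : Fin 8 → ZMod 2} (h : C.mP (w, io b)) :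
    C.ff (w, io b) = C.fp (enc b) w := by
  unfold ff
  rw [if_neg, if_pos h]
  · simp only
    rw [bc_io]
  · rintro (h1 | h1)
    · exact C.not_mG_of_mP h w h1
    · exact C.not_mS_io h1

lemma ff_out {v : V m a s} (h1 : ¬ C.mG v) (h2 : ¬ C.mS v) (h3 : ¬ C.mP v) :
    C.ff v = C.N * C.M0 + 1 := by
  unfold ff
  rw [if_neg (by tauto), if_neg h3]

lemma v0_R : C.R C.v0.1 = C.u (C.M - 1) := by simp [R, v0]

lemma v0_mP : C.mP C.v0 := by
  have h : C.X0 C.v0.1 := by
    refine ⟨C.M - 1, by have := C.hM1; omega, rfl, Or.inl C.v0_R⟩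
  have hb : C.b0 C.v0.1 = true := by simpa [b0] using h
  refine ⟨0, rfl, ?_⟩
  have e : enc (0 : Fin 8 → ZMod 2) = 0 := by decide
  rw [e, hb]
  rfl

lemma fp_le (n : ℕ) (w : W m a s) : C.fp n w ≤ C.N * C.M0 := by
  unfold fp
  split_ifs
  · exact C.f3_le w
  · exact C.f0_le w

lemma ff_A0 : ∀ v ∈ C.A0, C.ff v = 0 := by
  rintro v (hv | hv | rfl)
  · unfold ff; rw [if_pos (Or.inl hv)]
  · unfold ff; rw [if_pos (Or.inr hv)]
  · have h1 := C.v0_mP
    have h2 : C.ff C.v0 = C.fp (enc 0) C.v0.1 := C.ff_path (w := C.v0.1) (b := 0) h1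
    rw [h2]
    have e : enc (0 : Fin 8 → ZMod 2) = 0 := by decide
    unfold fp
    rw [e, if_neg (by decide)]
    unfold f0
    simp only [v0]
    rw [C.rk_yy C.hN, C.idx_u (by have := C.hM1; omega)]
    have := C.hM0
    omega

lemma memP_P0 {n : ℕ} {c0 c1 c3 : Bool} (h : memP n c0 c1 c3 = true) :
    (isP0 n = true ∧ c0 = true) ∨ (isP1 n = true ∧ c1 = true) ∨ (isP3 n = true ∧ c3 = true) := by
  simp only [memP, Bool.or_eq_true, Bool.and_eq_true] at h
  tauto

lemma isP_excl (n : ℕ) : (isP3 n = true → isP0 n = false ∧ isP1 n = false) := by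
  intro h
  simp only [isP3, beq_iff_eq] at h
  subst h
  decide

/-- horizontal neighbours of a path vertex on the path have nearly the same time -/
lemma fp_lip {w w' : W m a s} {b : Fin 8 → ZMod 2} (hd : dW w w' = 1) (h1 : C.mP (w, io b))
    (h2 : C.mP (w', io b)) : C.fp (enc b) w < C.fp (enc b) w' + 2 := by
  rw [mP_io] at h1 h2
  have hd' : dW w' w = 1 := by rw [dW_comm]; exact hd
  by_cases h3 : isP3 (enc b) = true
  · unfold fp
    rw [if_pos h3, if_pos h3]
    have hx := isP_excl _ h3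
    have g1 : C.X3 w := by
      rcases memP_P0 h1 with ⟨h, -⟩ | ⟨h, -⟩ | ⟨-, h⟩
      · rw [hx.1] at h; exact absurd h (by decide)
      · rw [hx.2] at h; exact absurd h (by decide)
      · simpa [b3] using h
    have g2 : C.X3 w' := by
      rcases memP_P0 h2 with ⟨h, -⟩ | ⟨h, -⟩ | ⟨-, h⟩
      · rw [hx.1] at h; exact absurd h (by decide)
      · rw [hx.2] at h; exact absurd h (by decide)
      · simpa [b3] using h
    exact C.f3_lip hd' g2 g1
  · unfold fp
    rw [if_neg h3, if_neg h3]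
    have g1 : C.X0 w := by
      rcases memP_P0 h1 with ⟨-, h⟩ | ⟨-, h⟩ | ⟨h, -⟩
      · simpa [b0] using h
      · exact C.X1_X0 (by simpa [b1] using h)
      · exact absurd h h3
    have g2 : C.X0 w' := by
      rcases memP_P0 h2 with ⟨-, h⟩ | ⟨-, h⟩ | ⟨h, -⟩
      · simpa [b0] using h
      · exact C.X1_X0 (by simpa [b1] using h)
      · exact absurd h h3
    exact C.f0_lip hd' g2 g1

/-- vertical neighbours on the path have the same time -/
lemma fp_vert_aux {w : W m a s} {b : Fin 8 → ZMod 2} {k : Fin 8}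
    (h2 : C.mP (w, io (b + ee k))) (h3 : isP3 (enc b) = true) (h4 : isP3 (enc (b + ee k)) = false) :
    C.f3 w = C.f0 w := by
  rw [mP_io] at h2
  rcases memP_P0 h2 with ⟨h, -⟩ | ⟨-, h⟩ | ⟨h, -⟩
  · exfalso
    have h5 := tab_adj ⟨enc (b + ee k), enc_lt _⟩ k h
    simp only at h5
    rw [← enc_flip, Pool.Agent.TH479.BP.add_add2, h3] at h5
    exact absurd h5 (by decide)
  · exact (C.f_agree (by simpa [b1] using h)).symm
  · rw [h4] at h
    exact absurd h (by decide)

lemma fp_vert {w : W m a s} {b : Fin 8 → ZMod 2} {k : Fin 8} (h1 : C.mP (w, io b))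
    (h2 : C.mP (w, io (b + ee k))) : C.fp (enc (b + ee k)) w = C.fp (enc b) w := by
  unfold fp
  by_cases h3 : isP3 (enc b) = true
  · by_cases h4 : isP3 (enc (b + ee k)) = true
    · rw [if_pos h3, if_pos h4]
    · rw [if_pos h3, if_neg h4]
      exact (C.fp_vert_aux h2 h3 (by simpa using h4)).symm
  · by_cases h4 : isP3 (enc (b + ee k)) = true
    · rw [if_neg h3, if_pos h4]
      refine C.fp_vert_aux (b := b + ee k) (k := k) ?_ h4 ?_
      · rw [Pool.Agent.TH479.BP.add_add2]; exact h1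
      · rw [Pool.Agent.TH479.BP.add_add2]; simpa using h3
    · rw [if_neg h3, if_neg h4]

lemma f0_vend : C.f0 C.vend = C.N * C.M0 := by
  unfold f0 vend
  simp only
  have hN := C.hN
  rw [C.rk_yy (by omega), ← C.u0, C.idx_u (by have := C.hM1; omega), Nat.sub_zero]
  obtain ⟨N', hN'⟩ : ∃ N', C.N = N' + 1 := ⟨C.N - 1, by omega⟩
  rw [hN', Nat.add_sub_cancel]
  ring

lemma fp_vend (n : ℕ) : C.fp n C.vend = C.N * C.M0 := by
  unfold fp
  rw [← C.f_agree C.vend_X1, C.f0_vend]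
  simp

lemma horiz (w : W m a s) (b : Fin 8 → ZMod 2) (h1 : ¬ C.mG (w, io b)) (h2 : ¬ C.mP (w, io b)) :
    {w' | dW w w' = 1 ∧ (C.mG (w', io b) ∨ C.mP (w', io b))}.ncard ≤ hb (enc b) := by
  have hH : isH (enc b) = false := by
    by_contra hcon
    apply h1
    rw [mG_io]
    unfold memG
    simp only [Bool.or_eq_true]
    right
    simpa using hcon
  have key : ∀ w' : W m a s, (C.mG (w', io b) ∨ C.mP (w', io b)) ↔
      (((isP0 (enc b) || isG0 (enc b)) = true ∧ C.X0 w') ∨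
       ((isP1 (enc b) || isG1 (enc b)) = true ∧ C.X1 w') ∨
       ((isP3 (enc b) || isG3 (enc b)) = true ∧ C.X3 w') ∨
       (isGE (enc b) = true ∧ w' = C.vend)) := by
    intro w'
    have hx0 : C.X0 w' ↔ C.b0 w' = true := by simp [b0]
    have hx1 : C.X1 w' ↔ C.b1 w' = true := by simp [b1]
    have hx3 : C.X3 w' ↔ C.b3 w' = true := by simp [b3]
    have hxE : w' = C.vend ↔ C.bE w' = true := by simp [bE]
    rw [hx0, hx1, hx3, hxE, mG_io, mP_io]
    unfold memG memP
    simp only [hH]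
    exact Pool.Agent.TH479.BP.Cols.bool_key _ _ _ _ _ _ _ _ _ _ _
  have hw : ¬ (C.mG (w, io b) ∨ C.mP (w, io b)) := by tauto
  rw [key] at hw
  have hset : {w' | dW w w' = 1 ∧ (C.mG (w', io b) ∨ C.mP (w', io b))} =
      {w' | dW w w' = 1 ∧ (((isP0 (enc b) || isG0 (enc b)) = true ∧ C.X0 w') ∨
       ((isP1 (enc b) || isG1 (enc b)) = true ∧ C.X1 w') ∨
       ((isP3 (enc b) || isG3 (enc b)) = true ∧ C.X3 w') ∨
       (isGE (enc b) = true ∧ w' = C.vend))} := by
    ext w'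
    simp only [mem_ofPred_eq, key]
  rw [hset]
  rcases tab_types ⟨enc b, enc_lt b⟩ with h | h | h | h | h <;> simp only at h <;>
    obtain ⟨e0, e1, e2, e3, e4⟩ := h <;> rw [e0] <;>
    simp only [e1, e2, e3, e4, Bool.false_eq_true, false_and, true_and, or_false, false_or] at hw ⊢
  · exact C.hits0 w
  · exact C.hits3 w hw
  · exact C.hits1 w
  · rw [Set.ncard_le_one_iff_subsingleton]
    rintro w' ⟨-, h⟩ w'' ⟨-, h'⟩
    rw [h, h']
  · simp

/-- small time: what can it be? -/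
lemma small_cases {v : V m a s} (h : C.ff v + 2 ≤ C.N * C.M0 + 1) : C.mG v ∨ C.mS v ∨ C.mP v := by
  by_contra hcon
  have : C.ff v = C.N * C.M0 + 1 := C.ff_out (by tauto) (by tauto) (by tauto)
  omega

/-- vertices next to or on the seed lines, at `wst` -/
lemma other_out {b : Fin 8 → ZMod 2} {l : Fin 8} (h : b = sb l ∨ b = sb l + ee l) (w : W m a s) :
    ¬ C.mG (w, io b) ∧ ¬ C.mP (w, io b) := by
  obtain ⟨d, hd⟩ := seed_code h
  rw [mG_io, mP_io, hd]
  have := seed_other l d (C.b0 w) (C.b1 w) (C.b3 w) (C.bE w)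
  rw [this.1, this.2.1]
  simp

lemma vend_of_PB {w : W m a s} {b : Fin 8 → ZMod 2} (hff : C.ff (w, io b) + 2 ≤ C.N * C.M0 + 1)
    (hG : ¬ C.mG (w, io b)) : C.mP (w, io b) ∧ w ≠ C.vend := by
  rcases C.small_cases hff with h | h | h
  · exact absurd h hG
  · exact absurd h C.not_mS_io
  · refine ⟨h, ?_⟩
    rintro rfl
    rw [C.ff_path h, C.fp_vend] at hff
    omega

/-- binary vertices on the path -/
lemma cert_path (w : W m a s) (b : Fin 8 → ZMod 2) (hP : C.mP (w, io b)) :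
    ((GV m a s).neighborSet (w, io b) ∩ {u | C.ff u + 2 ≤ C.ff (w, io b)}).ncard < 3 := by
  have hfv := C.ff_path hP
  have hw : w ≠ C.wst := by
    rintro rfl
    have e := C.wst_b
    rw [mP_io, e.1, e.2.1, e.2.2.1] at hP
    have := (memG_false ⟨enc b, enc_lt b⟩).2
    simp only at this
    rw [this] at hP
    exact absurd hP (by decide)
  refine lt_of_le_of_lt (nbr_le w (io b) _) ?_
  have h1 : {w' | dW w w' = 1 ∧ (w', io b) ∈ {u | C.ff u + 2 ≤ C.ff (w, io b)}} = ∅ := by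
    rw [Set.eq_empty_iff_forall_notMem]
    rintro w' ⟨hd, hk⟩
    have hk' : C.ff (w', io b) + 2 ≤ C.ff (w, io b) := hk
    rw [hfv] at hk'
    have g1 : ¬ C.mG (w', io b) := C.not_mG_of_mP hP _
    by_cases g2 : C.mP (w', io b)
    · rw [C.ff_path g2] at hk'
      have := C.fp_lip hd hP g2
      omega
    · rw [C.ff_out g1 C.not_mS_io g2] at hk'
      have := C.fp_le (enc b) w
      omega
  rw [h1, Set.ncard_empty, zero_add]
  have h2 : {ℓ' | hammingDist (io b) ℓ' = 1 ∧ (w, ℓ') ∈ {u | C.ff u + 2 ≤ C.ff (w, io b)}} ⊆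
      (fun k => (io (b + ee k) : Fin 8 → Z m)) ''
      ((Finset.univ.filter (fun k : Fin 8 => memG (enc b ^^^ 2 ^ k.val) (C.b0 w) (C.b1 w)
          (C.b3 w) (C.bE w) = true) : Finset (Fin 8)) : Set (Fin 8)) := by
    rintro ℓ' ⟨hd, hl⟩
    have hl' : C.ff (w, ℓ') + 2 ≤ C.ff (w, io b) := hl
    rw [hfv] at hl'
    by_cases hbg : bg ℓ' = ∅
    · obtain ⟨k, rfl⟩ := io_nbr hd hbg
      refine ⟨k, ?_, rfl⟩
      simp only [Finset.coe_filter, Finset.mem_univ, true_and, mem_ofPred_eq]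
      by_contra hcon
      have g1 : ¬ C.mG (w, io (b + ee k)) := by
        rw [mG_io, enc_flip]
        exact hcon
      by_cases g2 : C.mP (w, io (b + ee k))
      · rw [C.ff_path g2, C.fp_vert hP g2] at hl'
        omega
      · rw [C.ff_out g1 C.not_mS_io g2] at hl'
        have := C.fp_le (enc b) w
        omega
    · exfalso
      have g3 : ¬ C.mS (w, ℓ') := fun h => hw h.1
      rw [C.ff_out (C.not_mG_of_bg hbg) g3 (C.not_mP_of_bg hbg)] at hl'
      have := C.fp_le (enc b) w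
      omega
  have h3 := Set.ncard_le_ncard h2 (Set.toFinite _)
  have h3' := Set.ncard_image_le (f := fun k => (io (b + ee k) : Fin 8 → Z m)) (Set.toFinite
      ((Finset.univ.filter (fun k : Fin 8 => memG (enc b ^^^ 2 ^ k.val) (C.b0 w) (C.b1 w)
          (C.b3 w) (C.bE w) = true) : Finset (Fin 8)) : Set (Fin 8)))
  rw [Set.ncard_coe_finset] at h3'
  have h4 := tab_P ⟨enc b, enc_lt b⟩ (C.b0 w) (C.b1 w) (C.b3 w) (C.bE w) (C.cls w).1 (C.cls w).2
    (C.mP_io.1 hP)
  simp only at h4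
  omega

/-- binary neighbours with small time -/
lemma bin_vert (w : W m a s) (b : Fin 8 → ZMod 2) :
    {ℓ' | (hammingDist (io b) ℓ' = 1 ∧ C.ff (w, ℓ') + 2 ≤ C.N * C.M0 + 1) ∧ bg ℓ' = ∅} ⊆
      (fun k => (io (b + ee k) : Fin 8 → Z m)) ''
      ((Finset.univ.filter (fun k : Fin 8 => (memG (enc b ^^^ 2 ^ k.val) (C.b0 w) (C.b1 w)
          (C.b3 w) (C.bE w) || (!(C.bE w) && memP (enc b ^^^ 2 ^ k.val) (C.b0 w) (C.b1 w)
          (C.b3 w))) = true) : Finset (Fin 8)) : Set (Fin 8)) := by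
  rintro ℓ' ⟨⟨hd, hl⟩, hbg⟩
  obtain ⟨k, rfl⟩ := io_nbr hd hbg
  refine ⟨k, ?_, rfl⟩
  simp only [Finset.coe_filter, Finset.mem_univ, true_and, mem_ofPred_eq, Bool.or_eq_true,
    Bool.and_eq_true]
  by_cases hG : C.mG (w, io (b + ee k))
  · left
    rw [mG_io, enc_flip] at hG
    exact hG
  · right
    obtain ⟨g1, g2⟩ := C.vend_of_PB hl hG
    rw [mP_io, enc_flip] at g1
    exact ⟨by simp [bE, g2], g1⟩

/-- binary vertices off the path -/
lemma cert_bin (w : W m a s) (b : Fin 8 → ZMod 2) (hG : ¬ C.mG (w, io b)) (hP : ¬ C.mP (w, io b)) :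
    ((GV m a s).neighborSet (w, io b) ∩ {u | C.ff u + 2 ≤ C.ff (w, io b)}).ncard < 3 := by
  have hfv := C.ff_out hG C.not_mS_io hP
  rw [hfv]
  refine lt_of_le_of_lt (nbr_le w (io b) _) ?_
  have h1 : {w' | dW w w' = 1 ∧ (w', io b) ∈ {u | C.ff u + 2 ≤ C.N * C.M0 + 1}} ⊆
      {w' | dW w w' = 1 ∧ (C.mG (w', io b) ∨ C.mP (w', io b))} := by
    rintro w' ⟨hd, hk⟩
    refine ⟨hd, ?_⟩
    rcases C.small_cases hk with h | h | h
    · exact Or.inl h
    · exact absurd h C.not_mS_io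
    · exact Or.inr h
  have h2 := (Set.ncard_le_ncard h1 (Set.toFinite _)).trans (C.horiz w b hG hP)
  have hcov : {ℓ' | hammingDist (io b) ℓ' = 1 ∧ (w, ℓ') ∈ {u | C.ff u + 2 ≤ C.N * C.M0 + 1}} ⊆
      {ℓ' | (hammingDist (io b) ℓ' = 1 ∧ C.ff (w, ℓ') + 2 ≤ C.N * C.M0 + 1) ∧ bg ℓ' = ∅} ∪
      {ℓ' | w = C.wst ∧ ∃ l, ℓ' = sl l ∧ hammingDist (io b) ℓ' = 1} := by
    rintro ℓ' ⟨hd, hl⟩
    by_cases hbg : bg ℓ' = ∅
    · left; exact ⟨⟨hd, hl⟩, hbg⟩
    · right
      rcases C.small_cases hl with h | h | h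
      · exact absurd h (C.not_mG_of_bg hbg)
      · exact ⟨h.1, h.2.choose, h.2.choose_spec, hd⟩
      · exact absurd h (C.not_mP_of_bg hbg)
  have h3 := Set.ncard_le_ncard hcov (Set.toFinite _)
  have h4 := h3.trans (Set.ncard_union_le
    {ℓ' : Fin 8 → Z m | (hammingDist (io b) ℓ' = 1 ∧ C.ff (w, ℓ') + 2 ≤ C.N * C.M0 + 1) ∧ bg ℓ' = ∅}
    {ℓ' | w = C.wst ∧ ∃ l, ℓ' = sl l ∧ hammingDist (io b) ℓ' = 1})
  have h5 := Set.ncard_le_ncard (C.bin_vert w b) (Set.toFinite _)
  have h6 := Set.ncard_image_le (f := fun k => (io (b + ee k) : Fin 8 → Z m)) (Set.toFinite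
      ((Finset.univ.filter (fun k : Fin 8 => (memG (enc b ^^^ 2 ^ k.val) (C.b0 w) (C.b1 w)
          (C.b3 w) (C.bE w) || (!(C.bE w) && memP (enc b ^^^ 2 ^ k.val) (C.b0 w) (C.b1 w)
          (C.b3 w))) = true) : Finset (Fin 8)) : Set (Fin 8)))
  rw [Set.ncard_coe_finset] at h6
  by_cases hseed : w = C.wst ∧ ∃ l, hammingDist (io b) (sl l : Fin 8 → Z m) = 1
  · obtain ⟨hw, l, hl⟩ := hseed
    have hbl := sl_io hl
    obtain ⟨d, hd⟩ := seed_code hbl
    have e := C.wst_b
    have e1 := seed_other l d false false false false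
    have e2 := seed_card l d (C.bE w)
    subst hw
    rw [← hd] at e1 e2
    rw [e1.2.2] at h2
    rw [e.1, e.2.1, e.2.2.1, e.2.2.2] at h5 h6
    rw [e.2.2.2] at e2
    have h7 : {ℓ' : Fin 8 → Z m | C.wst = C.wst ∧ ∃ l, ℓ' = sl l ∧
        hammingDist (io b) ℓ' = 1}.ncard ≤ 1 := by
      rw [Set.ncard_le_one_iff_subsingleton]
      rintro _ ⟨-, l1, rfl, g1⟩ _ ⟨-, l2, rfl, g2⟩
      obtain ⟨d1, hd1⟩ := seed_code (sl_io g1)
      obtain ⟨d2, hd2⟩ := seed_code (sl_io g2)
      rw [seed_disj l1 l2 d1 d2 (hd1.symm.trans hd2)]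
    omega
  · have h7 : {ℓ' : Fin 8 → Z m | w = C.wst ∧ ∃ l, ℓ' = sl l ∧
        hammingDist (io b) ℓ' = 1} = ∅ := by
      rw [Set.eq_empty_iff_forall_notMem]
      rintro _ ⟨g1, l, rfl, g2⟩
      exact hseed ⟨g1, l, g2⟩
    rw [h7, Set.ncard_empty] at h4
    have h8 := tab_out ⟨enc b, enc_lt b⟩ (C.b0 w) (C.b1 w) (C.b3 w) (C.bE w) (C.cls w).1 (C.cls w).2
      (by simpa [mG_io] using hG) (by simpa [mP_io] using hP)
    simp only at h8
    omega

/-- a seed layer at distance one from a non-binary layer -/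
lemma sl_near {ℓ : Fin 8 → Z m} {l : Fin 8} (h : hammingDist ℓ (sl l) = 1) :
    ∃ k, bg ℓ ⊆ {l, k} ∧ (l ≠ k → l ∈ bg ℓ) ∧ ℓ k ≠ (sl l : Fin 8 → Z m) k ∧
      ∀ j, j ≠ k → ℓ j = (sl l : Fin 8 → Z m) j := by
  obtain ⟨k, h1, h2⟩ := hd_one h
  refine ⟨k, ?_, ?_, h1, h2⟩
  · intro j hj
    rw [Finset.mem_insert, Finset.mem_singleton]
    by_contra hcon
    push Not at hcon
    have e := h2 j hcon.2
    rw [sl_of_ne hcon.1] at e
    rw [mem_bg, e] at hj
    rcases io_01 (m := m) (sb l) j with h3 | h3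
    · exact hj.1 h3
    · exact hj.2 h3
  · intro hne
    rw [mem_bg, h2 l hne, sl_self]
    exact zm2

/-- non-binary vertices -/
lemma cert_big (w : W m a s) (ℓ : Fin 8 → Z m) (hbg : bg ℓ ≠ ∅) (hS : ¬ C.mS (w, ℓ)) :
    ((GV m a s).neighborSet (w, ℓ) ∩ {u | C.ff u + 2 ≤ C.ff (w, ℓ)}).ncard < 3 := by
  have hfv := C.ff_out (v := (w, ℓ)) (C.not_mG_of_bg hbg) hS (C.not_mP_of_bg hbg)
  rw [hfv]
  refine lt_of_le_of_lt (nbr_le w ℓ _) ?_
  -- horizontal hits
  have hH : {w' | dW w w' = 1 ∧ (w', ℓ) ∈ {u | C.ff u + 2 ≤ C.N * C.M0 + 1}} ⊆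
      {w' | dW w w' = 1 ∧ w' = C.wst ∧ ∃ l, ℓ = sl l} := by
    rintro w' ⟨hd, hk⟩
    refine ⟨hd, ?_⟩
    rcases C.small_cases hk with h | h | h
    · exact absurd h (C.not_mG_of_bg hbg)
    · exact h
    · exact absurd h (C.not_mP_of_bg hbg)
  have hH1 := Set.ncard_le_ncard hH (Set.toFinite _)
  have hcov : {ℓ' | hammingDist ℓ ℓ' = 1 ∧ (w, ℓ') ∈ {u | C.ff u + 2 ≤ C.N * C.M0 + 1}} ⊆
      {ℓ' | hammingDist ℓ ℓ' = 1 ∧ ∃ b, ℓ' = io b ∧ (C.mG (w, io b) ∨ C.mP (w, io b))} ∪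
      {ℓ' | hammingDist ℓ ℓ' = 1 ∧ w = C.wst ∧ ∃ l, ℓ' = sl l} := by
    rintro ℓ' ⟨hd, hl⟩
    rcases C.small_cases hl with h | h | h
    · left
      have hh := h
      obtain ⟨b, hb, -⟩ := h
      have hb' : ℓ' = io b := hb
      subst hb'
      exact ⟨hd, b, rfl, Or.inl hh⟩
    · right; exact ⟨hd, h⟩
    · left
      have hh := h
      obtain ⟨b, hb, -⟩ := h
      have hb' : ℓ' = io b := hb
      subst hb'
      exact ⟨hd, b, rfl, Or.inr hh⟩
  have h3 := Set.ncard_le_ncard hcov (Set.toFinite _)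
  have h4 := h3.trans (Set.ncard_union_le
    {ℓ' : Fin 8 → Z m | hammingDist ℓ ℓ' = 1 ∧ ∃ b, ℓ' = io b ∧ (C.mG (w, io b) ∨ C.mP (w, io b))}
    {ℓ' | hammingDist ℓ ℓ' = 1 ∧ w = C.wst ∧ ∃ l, ℓ' = sl l})
  -- binary neighbours agree with `ℓ` off the big coordinate
  have hbin : ∀ (l : Fin 8), l ∈ bg ℓ → ∀ b : Fin 8 → ZMod 2,
      hammingDist ℓ (io b) = 1 → ∀ j, j ≠ l → ℓ j = io b j := by
    intro l hl b hb
    obtain ⟨k, h1, h2⟩ := hd_one hb
    have hk : l = k := by
      by_contra hne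
      have := h2 l hne
      rw [mem_bg, this] at hl
      rcases io_01 (m := m) b l with h3 | h3
      · exact hl.1 h3
      · exact hl.2 h3
    rw [hk]
    exact h2
  by_cases h1 : (bg ℓ).card ≤ 1
  · -- one big coordinate
    obtain ⟨l, hl⟩ : ∃ l, bg ℓ = {l} := by
      apply Finset.card_eq_one.1
      have : 0 < (bg ℓ).card := Finset.card_pos.2 (Finset.nonempty_iff_ne_empty.2 hbg)
      omega
    have hlm : l ∈ bg ℓ := by rw [hl]; exact Finset.mem_singleton_self l
    -- seeds adjacent have direction `l`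
    have hseedl : ∀ l', hammingDist ℓ (sl l') = 1 → l' = l := by
      intro l' h
      obtain ⟨k, g1, g2, g3, g4⟩ := sl_near h
      by_cases hk : l' = k
      · have : l ∈ ({l', k} : Finset (Fin 8)) := g1 hlm
        rw [← hk] at this
        simp only [Finset.mem_insert, Finset.mem_singleton, or_self] at this
        exact this.symm
      · have := g2 hk
        rw [hl, Finset.mem_singleton] at this
        exact this
    have hS1 : {ℓ' : Fin 8 → Z m | hammingDist ℓ ℓ' = 1 ∧ w = C.wst ∧ ∃ l, ℓ' = sl l}.ncard ≤ 1 := by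
      rw [Set.ncard_le_one_iff_subsingleton]
      rintro _ ⟨g1, -, l1, rfl⟩ _ ⟨g2, -, l2, rfl⟩
      rw [hseedl l1 g1, hseedl l2 g2]
    have hB2 : {ℓ' : Fin 8 → Z m | hammingDist ℓ ℓ' = 1 ∧ ∃ b, ℓ' = io b ∧
        (C.mG (w, io b) ∨ C.mP (w, io b))}.ncard ≤ 2 := by
      refine ncard_le_two_of_cover _
        {ℓ' | ∃ b, ℓ' = io b ∧ b l = 0 ∧ ∀ j, j ≠ l → ℓ j = io b j}
        {ℓ' | ∃ b, ℓ' = io b ∧ b l = 1 ∧ ∀ j, j ≠ l → ℓ j = io b j} ?_ ?_ ?_
      · rintro ℓ' ⟨g1, b, rfl, -⟩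
        rcases z2 (b l) with h | h
        · left; exact ⟨b, rfl, h, hbin l hlm b g1⟩
        · right; exact ⟨b, rfl, h, hbin l hlm b g1⟩
      · rintro _ ⟨b, rfl, g1, g2⟩ _ ⟨b', rfl, g1', g2'⟩
        congr 1
        funext j
        by_cases hj : j = l
        · rw [hj, g1, g1']
        · exact io_apply_eq.1 ((g2 j hj).symm.trans (g2' j hj))
      · rintro _ ⟨b, rfl, g1, g2⟩ _ ⟨b', rfl, g1', g2'⟩
        congr 1
        funext j
        by_cases hj : j = l
        · rw [hj, g1, g1']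
        · exact io_apply_eq.1 ((g2 j hj).symm.trans (g2' j hj))
    by_cases hc1 : ∃ l', ℓ = sl l'
    · -- the layer of a seed
      obtain ⟨l', hl'⟩ := hc1
      have hll : l' = l := by
        rw [hl', bg_sl, Finset.singleton_inj] at hl
        exact hl
      subst hll
      have hw : w ≠ C.wst := by
        intro h
        exact hS ⟨h, l', hl'⟩
      have e1 : {ℓ' : Fin 8 → Z m | hammingDist ℓ ℓ' = 1 ∧ ∃ b, ℓ' = io b ∧
          (C.mG (w, io b) ∨ C.mP (w, io b))} = ∅ := by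
        rw [Set.eq_empty_iff_forall_notMem]
        rintro _ ⟨g1, b, rfl, g2⟩
        rw [hl', hammingDist_comm] at g1
        have := C.other_out (sl_io g1) w
        tauto
      have e2 : {ℓ' : Fin 8 → Z m | hammingDist ℓ ℓ' = 1 ∧ w = C.wst ∧ ∃ l, ℓ' = sl l} = ∅ := by
        rw [Set.eq_empty_iff_forall_notMem]
        rintro _ ⟨-, g1, -⟩
        exact hw g1
      rw [e1, e2, Set.ncard_empty] at h4
      have e3 : {w' | dW w w' = 1 ∧ w' = C.wst ∧ ∃ l, ℓ = sl l}.ncard ≤ 1 := by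
        rw [Set.ncard_le_one_iff_subsingleton]
        rintro w1 ⟨-, g1, -⟩ w2 ⟨-, g2, -⟩
        rw [g1, g2]
      omega
    · have e3 : {w' | dW w w' = 1 ∧ w' = C.wst ∧ ∃ l, ℓ = sl l} = ∅ := by
        rw [Set.eq_empty_iff_forall_notMem]
        rintro w1 ⟨-, -, g1⟩
        exact hc1 g1
      rw [e3, Set.ncard_empty] at hH1
      by_cases hc2 : w = C.wst ∧ hammingDist ℓ (sl l) = 1
      · obtain ⟨hw, hd⟩ := hc2
        have e1 : {ℓ' : Fin 8 → Z m | hammingDist ℓ ℓ' = 1 ∧ ∃ b, ℓ' = io b ∧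
            (C.mG (w, io b) ∨ C.mP (w, io b))}.ncard ≤ 1 := by
          rw [Set.ncard_le_one_iff_subsingleton]
          rintro _ ⟨g1, b, rfl, g2⟩ _ ⟨g1', b', rfl, g2'⟩
          by_contra hne
          have hbb : ∀ j, j ≠ l → b j = b' j := fun j hj =>
            io_apply_eq.1 ((hbin l hlm b g1 j hj).symm.trans (hbin l hlm b' g1' j hj))
          have hb' : b' = b + ee l := by
            rcases agree_off hbb with h | h
            · exact absurd (by rw [h]) hne
            · exact h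
          obtain ⟨k, -, -, k1, k2⟩ := sl_near hd
          by_cases hkl : k = l
          · -- ends of the seed line
            subst hkl
            have : b = sb k ∨ b = sb k + ee k := by
              apply agree_off
              intro j hj
              have e4 := k2 j hj
              rw [sl_of_ne hj, hbin k hlm b g1 j hj] at e4
              exact (io_apply_eq.1 e4).symm
            have := C.other_out this w
            tauto
          · -- neighbouring line
            have e5 : ∀ j, j ≠ l → j ≠ k → b j = sb l j := by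
              intro j hj hjk
              have e4 := k2 j hjk
              rw [sl_of_ne hj, hbin l hlm b g1 j hj] at e4
              exact io_apply_eq.1 e4
            have e6 : b k = sb l k + 1 := by
              rw [sl_of_ne hkl, hbin l hlm b g1 k hkl] at k1
              have e7 : b k ≠ sb l k := fun h => k1 (io_apply_eq.2 h)
              have e8 : ∀ x y : ZMod 2, x ≠ y → x = y + 1 := by decide
              exact e8 _ _ e7
            have e9 : ∀ j, j ≠ l → (sb l + ee k) j = b j := by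
              intro j hj
              by_cases hjk : j = k
              · rw [hjk, on_of_add, e6]
              · rw [off_of_add hjk, e5 j hj hjk]
            have hset : (b = sb l + ee k ∧ b' = sb l + ee k + ee l) ∨
                (b' = sb l + ee k ∧ b = sb l + ee k + ee l) := by
              rcases agree_off e9 with h | h
              · left; rw [hb', h]; exact ⟨rfl, rfl⟩
              · right; rw [hb', h]; exact ⟨Pool.Agent.TH479.BP.add_add2 _ _, rfl⟩
            have e := C.wst_b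
            have hfin : ∀ b : Fin 8 → ZMod 2, (C.mG (w, io b) ∨ C.mP (w, io b)) →
                isH (enc b) = true := by
              intro b h
              rw [mG_io, mP_io, hw, e.1, e.2.1, e.2.2.1, e.2.2.2] at h
              have := memG_false ⟨enc b, enc_lt b⟩
              simp only at this
              rw [this.1, this.2] at h
              rcases h with h | h
              · exact h
              · exact absurd h (by decide)
            have f1 := hfin b g2
            have f2 := hfin b' g2'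
            have f3 := seed_H l k hkl
            rcases hset with ⟨r1, r2⟩ | ⟨r1, r2⟩
            · rw [r1, enc_flip, enc_sb] at f1
              rw [r2, enc_flip, enc_flip, enc_sb] at f2
              exact f3 ⟨f1, f2⟩
            · rw [r1, enc_flip, enc_sb] at f2
              rw [r2, enc_flip, enc_flip, enc_sb] at f1
              exact f3 ⟨f2, f1⟩
        omega
      · have e2 : {ℓ' : Fin 8 → Z m | hammingDist ℓ ℓ' = 1 ∧ w = C.wst ∧ ∃ l, ℓ' = sl l} = ∅ := by
          rw [Set.eq_empty_iff_forall_notMem]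
          rintro _ ⟨g1, g2, l', rfl⟩
          have := hseedl l' g1
          subst this
          exact hc2 ⟨g2, g1⟩
        rw [e2, Set.ncard_empty] at h4
        omega
  · -- at least two big coordinates
    have e3 : {w' | dW w w' = 1 ∧ w' = C.wst ∧ ∃ l, ℓ = sl l} = ∅ := by
      rw [Set.eq_empty_iff_forall_notMem]
      rintro w1 ⟨-, -, l, rfl⟩
      rw [bg_sl] at h1
      simp at h1
    rw [e3, Set.ncard_empty] at hH1
    have e1 : {ℓ' : Fin 8 → Z m | hammingDist ℓ ℓ' = 1 ∧ ∃ b, ℓ' = io b ∧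
        (C.mG (w, io b) ∨ C.mP (w, io b))} = ∅ := by
      rw [Set.eq_empty_iff_forall_notMem]
      rintro _ ⟨g1, b, rfl, -⟩
      apply h1
      obtain ⟨l, hl⟩ := Finset.nonempty_iff_ne_empty.2 hbg
      have h5 := hbin l hl b g1
      have : bg ℓ ⊆ {l} := by
        intro j hj
        rw [Finset.mem_singleton]
        by_contra hne
        rw [mem_bg, h5 j hne] at hj
        rcases io_01 (m := m) b j with h3 | h3
        · exact hj.1 h3
        · exact hj.2 h3
      exact (Finset.card_le_card this).trans (by simp)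
    rw [e1, Set.ncard_empty] at h4
    have e2 : {ℓ' : Fin 8 → Z m | hammingDist ℓ ℓ' = 1 ∧ w = C.wst ∧ ∃ l, ℓ' = sl l}.ncard ≤ 2 := by
      by_cases hne : {ℓ' : Fin 8 → Z m | hammingDist ℓ ℓ' = 1 ∧ w = C.wst ∧ ∃ l, ℓ' = sl l}.Nonempty
      · obtain ⟨_, g1, -, l0, rfl⟩ := hne
        obtain ⟨k0, g2, -, -, -⟩ := sl_near g1
        have hc2 : (bg ℓ).card ≤ 2 := (Finset.card_le_card g2).trans Finset.card_le_two
        have hsub : {ℓ' : Fin 8 → Z m | hammingDist ℓ ℓ' = 1 ∧ w = C.wst ∧ ∃ l, ℓ' = sl l} ⊆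
            (fun l => (sl l : Fin 8 → Z m)) '' ((bg ℓ : Finset (Fin 8)) : Set (Fin 8)) := by
          rintro _ ⟨g1, -, l, rfl⟩
          refine ⟨l, ?_, rfl⟩
          obtain ⟨k, g2, g3, -, -⟩ := sl_near g1
          rw [Finset.mem_coe]
          by_cases hlk : l = k
          · exfalso
            apply h1
            rw [← hlk] at g2
            refine (Finset.card_le_card g2).trans ?_
            simp
          · exact g3 hlk
        have h5 := Set.ncard_le_ncard hsub (Set.toFinite _)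
        have h6 := Set.ncard_image_le (f := fun l => (sl l : Fin 8 → Z m))
          (Set.toFinite ((bg ℓ : Finset (Fin 8)) : Set (Fin 8)))
        rw [Set.ncard_coe_finset] at h6
        omega
      · rw [Set.not_nonempty_iff_eq_empty.1 hne, Set.ncard_empty]
        omega
    omega

lemma cert : ∀ v ∉ C.A0, ((GV m a s).neighborSet v ∩ {u | C.ff u + 2 ≤ C.ff v}).ncard < 3 := by
  rintro ⟨w, ℓ⟩ hv
  have hvG : ¬ C.mG (w, ℓ) := fun h => hv (Or.inl h)
  have hvS : ¬ C.mS (w, ℓ) := fun h => hv (Or.inr (Or.inl h))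
  by_cases hbg : bg ℓ = ∅
  · have e := io_bc hbg
    rw [← e] at hvG hvS ⊢
    by_cases hP : C.mP (w, io (bc ℓ))
    · exact C.cert_path w _ hP
    · exact C.cert_bin w _ hvG hP
  · exact C.cert_big w ℓ hbg hvS

end Dat

end Pool.Agent.Helper52.BPq
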