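import Pool.Agent.Helper52.BPq.Greedy

set_option autoImplicit false

/-!
The data of the construction and their existence.
-/

namespace Pool.Agent.Helper52.BPq

open Finset

/-- The data: a thin path `u`, a Hamiltonian path `yy`, and the syndrome map `h`. -/
structure Dat (m a s : ℕ) where
  M : ℕ
  M0 : ℕ
  hM1 : 1 < M
  hM0 : M0 < M
  u : ℕ → (Fin s → Z m)
  u0 : u 0 = 0
  uadj : ∀ t, t + 1 < M → hammingDist (u t) (u (t + 1)) = 1
  uinj : ∀ t t', t < M → t' < M → u t = u t' → t = t'
  uthin : ∀ t t' t'', t < M → t' < M → t'' < M → hammingDist (u t) (u t') = 1 →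
    hammingDist (u t') (u t'') = 1 → hammingDist (u t) (u t'') = 1 → False
  N : ℕ
  hN : 0 < N
  yy : ℕ → (Fin a → Z m)
  yadj : ∀ t, t + 1 < N → hammingDist (yy t) (yy (t + 1)) = 1
  yinj : ∀ t t', t < N → t' < N → yy t = yy t' → t = t'
  ysurj : ∀ y, ∃ t < N, yy t = y
  h : (Fin a → Z m) → (Fin s → Z m)
  hnorm : ∀ y y', hammingDist y y' = 1 → 4 ≤ hammingDist (h y) (h y')
  hloc : ∀ y y' y'', hammingDist y y' = 1 → hammingDist y y'' = 1 → h y' = h y'' → y' = y''
  htop : ∀ y y', hammingDist y y' = 1 → ∃ j, M0 ≤ j ∧ j < M ∧ u j = h y - h y'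
  hs : 0 < s

theorem exists_dat (m a k : ℕ) (hk : 2 * (((k + 3) * (m + 3)) ^ 3 + a * (m + 3) ^ 2) < (m + 3) ^ k) :
    ∃ C : Dat m a (k + 3), C.M0 = 2 * (m + 3) ^ k ∧ C.N = (m + 3) ^ a := by
  classical
  set q := m + 3 with hq
  set u := up m (k + 2) with hu
  have hP := up_isP m (k + 2)
  rw [← hq, ← hu] at hP
  have hqk : 0 < q ^ k := by positivity
  have e2 : q ^ (k + 2) = q ^ k * q * q := by ring
  have e3 : q ^ k * 3 ≤ q ^ k * q := Nat.mul_le_mul_left _ (by omega)
  have e4 : q ^ k * q * 3 ≤ q ^ k * q * q := Nat.mul_le_mul_left _ (by omega)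
  have hM0 : 2 * q ^ k < 2 * q ^ (k + 2) := by rw [e2]; omega
  let S : Finset (Fin (k + 3) → Z m) := (range (q ^ (k + 2))).image (fun t => u (2 * t))
  let F : Finset (Fin (k + 3) → Z m) := lowW m (k + 3) ∪ (range (q ^ k)).image (fun t => u (2 * t))
  have hScard : S.card = q ^ (k + 2) := by
    rw [Finset.card_image_of_injOn, Finset.card_range]
    intro t ht t' ht' h
    have h1 : t < q ^ (k + 2) := Finset.mem_range.1 ht
    have h2 : t' < q ^ (k + 2) := Finset.mem_range.1 ht'
    have := hP.inj (2 * t) (2 * t') (by omega) (by omega) h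
    omega
  have hFcard : F.card ≤ ((k + 3) * q) ^ 3 + q ^ k := by
    refine (Finset.card_union_le _ _).trans ?_
    have h1 := lowW_card m (k + 3)
    have h2 : ((range (q ^ k)).image (fun t => u (2 * t))).card ≤ q ^ k := by
      refine Finset.card_image_le.trans ?_
      rw [Finset.card_range]
    rw [← hq] at h1
    omega
  obtain ⟨φ, h1, h2, h3⟩ := outer S F q a (by
    rw [hScard]
    calc 2 * q * (F.card + a * q ^ 2) ≤ 2 * q * (((k + 3) * q) ^ 3 + q ^ k + a * q ^ 2) := by
          apply Nat.mul_le_mul_left; omega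
      _ = q * (2 * (((k + 3) * q) ^ 3 + a * q ^ 2)) + 2 * (q ^ k * q) := by ring
      _ < q * q ^ k + 2 * (q ^ k * q) := by
          apply Nat.add_lt_add_right
          exact (Nat.mul_lt_mul_left (by omega)).2 hk
      _ = q ^ k * q * 3 := by ring
      _ ≤ q ^ (k + 2) := by rw [e2]; exact e4)
  have hval : ∀ x : Z m, x.val < q := fun x => ZMod.val_lt x
  let h : (Fin a → Z m) → (Fin (k + 3) → Z m) := fun y => ∑ i : Fin a, φ i (y i).val
  have hdiff : ∀ (y y' : Fin a → Z m) (i : Fin a), (∀ j, j ≠ i → y j = y' j) →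
      h y - h y' = φ i (y i).val - φ i (y' i).val := by
    intro y y' i hj
    simp only [h]
    rw [← Finset.sum_sub_distrib, Finset.sum_eq_single i]
    · intro j _ hne
      rw [hj j hne, sub_self]
    · intro hi; simp at hi
  have hS0 : ∀ i < a, ∀ x < q, sg (φ i x) = 0 := by
    intro i hi x hx
    obtain ⟨t, ht, hte⟩ := Finset.mem_image.1 (h1 i hi x hx)
    have ht' : t < q ^ (k + 2) := Finset.mem_range.1 ht
    rw [← hte, hu, up_sg_lt (by rw [← hq]; omega)]
    have : 2 * t % 2 = 0 := by omega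
    rw [this, Nat.cast_zero]
  have hvne : ∀ x y : Z m, x ≠ y → x.val ≠ y.val := fun x y hne he => hne (ZMod.val_injective _ he)
  have hnorm' : ∀ (i : Fin a) (x y : Z m), x ≠ y → 4 ≤ hammingNorm (φ i x.val - φ i y.val) := by
    intro i x y hne
    apply norm_of_not_lowW (by omega)
    intro hF
    exact h2 i i.2 _ (hval x) _ (hval y) (hvne _ _ hne) (Finset.mem_union_left _ hF)
  refine ⟨{ M := 2 * q ^ (k + 2), M0 := 2 * q ^ k, hM1 := by omega, hM0 := hM0, u := u,
            u0 := hP.zero, uadj := hP.adj, uinj := hP.inj, uthin := ?_, N := q ^ a,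
            hN := by positivity, yy := yp m a, yadj := (yp_isP m a).adj, yinj := (yp_isP m a).inj,
            ysurj := yp_surj m a, h := h, hnorm := ?_, hloc := ?_, htop := ?_, hs := by omega },
          rfl, rfl⟩
  · intro t t' t'' ht ht' ht'' g1 g2 g3
    exact up_thin (m := m) (s := k + 2) ht ht' ht'' g1 g2 g3
  · intro y y' hd
    obtain ⟨i, hi, hj⟩ := hd_one hd
    rw [hd_eq_norm, hdiff y y' i hj]
    exact hnorm' i _ _ hi
  · intro y y' y'' hd hd' he
    obtain ⟨i, hi, hj⟩ := hd_one hd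
    obtain ⟨i', hi', hj'⟩ := hd_one hd'
    by_cases hii : i = i'
    · subst hii
      have e : ∀ j, j ≠ i → y' j = y'' j := fun j hne => (hj j hne).symm.trans (hj' j hne)
      have e5 := hdiff y' y'' i e
      rw [he, sub_self] at e5
      funext j
      by_cases hne : j = i
      · subst hne
        by_contra hcon
        have := hnorm' j _ _ hcon
        rw [← e5] at this
        simp at this
      · exact e j hne
    · exfalso
      have e5 := hdiff y y' i hj
      have e6 := hdiff y y'' i' hj'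
      rw [he] at e5
      refine h3 i i.2 i' i'.2 (fun hc => hii (Fin.ext hc)) _ (hval (y i)) _ (hval (y' i)) _
        (hval (y i')) _ (hval (y'' i')) (hvne _ _ hi) (hvne _ _ hi') ?_
      rw [← e5, ← e6]
  · intro y y' hd
    obtain ⟨i, hi, hj⟩ := hd_one hd
    have e := hdiff y y' i hj
    obtain ⟨t, ht, hte⟩ := up_surj m (k + 2) (h y - h y') (by
      left
      rw [e, sg_sub, hS0 i i.2 _ (hval _), hS0 i i.2 _ (hval _), sub_zero])
    refine ⟨t, ?_, ht, hte⟩
    have hs1 : sg (h y - h y') = 0 := by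
      rw [e, sg_sub, hS0 i i.2 _ (hval _), hS0 i i.2 _ (hval _), sub_zero]
    rw [← hte, up_sg_lt ht] at hs1
    by_contra hlt
    push Not at hlt
    have hev : t % 2 = 0 := by
      rcases Nat.mod_two_eq_zero_or_one t with h0 | h0
      · exact h0
      · rw [h0, Nat.cast_one] at hs1
        exact absurd hs1 one_ne_zero
    apply h2 i i.2 _ (hval (y i)) _ (hval (y' i)) (hvne _ _ hi)
    apply Finset.mem_union_right
    refine Finset.mem_image.2 ⟨t / 2, Finset.mem_range.2 (by omega), ?_⟩
    rw [← e, ← hte]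
    simp only [hu]
    congr 1
    omega

end Pool.Agent.Helper52.BPq
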