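import Pool.Agent.Helper52.BPq.Perc
import Pool.Graph.R_seed8.TH479.BP.Cube

set_option autoImplicit false

/-!
Transfer to the `q`-ary hypercube, padding, and the final bounds.
-/

namespace Pool.Agent.Helper52.BPq

open Set
open Pool.Agent.TH479.BP (step closure stage closed_closure subset_closure' cube Has maxTime
  maxTime_mem stage_subset_closure time upper bdd_times)

variable {m a s : ℕ}

section iso

/-- all coordinates -/
abbrev Ix (a s : ℕ) := (Fin a ⊕ Fin s ⊕ Fin s) ⊕ Fin 8

/-- coordinates as one vector -/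
def e0 (v : V m a s) : Ix a s → Z m :=
  Sum.elim (Sum.elim v.1.1 (Sum.elim v.1.2.1 v.1.2.2)) v.2

lemma e0_injective : Function.Injective (e0 (m := m) (a := a) (s := s)) := by
  rintro ⟨⟨y, ρ, κ⟩, q⟩ ⟨⟨y', ρ', κ'⟩, q'⟩ h
  simp only [Prod.mk.injEq]
  refine ⟨⟨?_, ?_, ?_⟩, ?_⟩
  · funext i; exact congrFun h (Sum.inl (Sum.inl i))
  · funext i; exact congrFun h (Sum.inl (Sum.inr (Sum.inl i)))
  · funext i; exact congrFun h (Sum.inl (Sum.inr (Sum.inr i)))
  · funext i; exact congrFun h (Sum.inr i)

lemma e0_surjective : Function.Surjective (e0 (m := m) (a := a) (s := s)) := by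
  intro f
  refine ⟨((fun i => f (Sum.inl (Sum.inl i)), fun i => f (Sum.inl (Sum.inr (Sum.inl i))),
    fun i => f (Sum.inl (Sum.inr (Sum.inr i)))), fun i => f (Sum.inr i)), ?_⟩
  funext k
  rcases k with (i | j | j) | l <;> rfl

lemma hd_e0 (v v' : V m a s) : hammingDist (e0 v) (e0 v') = dV v v' := by
  unfold dV dW hammingDist
  simp only [Finset.card_filter, Fintype.sum_sum_type, e0, Sum.elim_inl, Sum.elim_inr]
  ring

lemma hd_one_iff' {ι β : Type*} [Fintype ι] [DecidableEq ι] [DecidableEq β] {x y : ι → β} :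
    hammingDist x y = 1 ↔ ∃! i, x i ≠ y i := by
  unfold hammingDist
  rw [Finset.card_eq_one]
  constructor
  · rintro ⟨i, hi⟩
    refine ⟨i, ?_, ?_⟩
    · have : i ∈ ({i} : Finset ι) := Finset.mem_singleton_self i
      rw [← hi] at this
      simpa using this
    · intro j hj
      have : j ∈ ({i} : Finset ι) := by
        rw [← hi]
        simpa using hj
      exact Finset.mem_singleton.1 this
  · rintro ⟨i, hi, hu⟩
    refine ⟨i, ?_⟩
    ext j
    simp only [ne_eq, Finset.mem_filter, Finset.mem_univ, true_and, Finset.mem_singleton]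
    constructor
    · intro hj; exact hu j hj
    · rintro rfl; exact hi

/-- the isomorphism -/
noncomputable def isoCube (n : ℕ) (σ : Ix a s ≃ Fin n) : GV m a s ≃g cube n (m + 3) where
  toEquiv := (Equiv.ofBijective e0 ⟨e0_injective, e0_surjective⟩).trans
    (Equiv.arrowCongr σ (Equiv.refl (Fin (m + 3))))
  map_rel_iff' := by
    intro u v
    change (∃! i, e0 u (σ.symm i) ≠ e0 v (σ.symm i)) ↔ dV u v = 1
    rw [← hd_e0, hd_one_iff']
    constructor
    · rintro ⟨i, hi, hu⟩
      refine ⟨σ.symm i, hi, ?_⟩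
      intro j hj
      rw [← hu (σ j) (by simpa using hj), Equiv.symm_apply_apply]
    · rintro ⟨i, hi, hu⟩
      refine ⟨σ i, by simpa using hi, ?_⟩
      intro j hj
      rw [← hu _ hj, Equiv.apply_symm_apply]

lemma card_ix : Fintype.card (Ix a s) = a + 2 * s + 8 := by
  simp [Fintype.card_sum]; ring

end iso

section pad

variable {n q : ℕ}

lemma cube_adj_succ (x y : Fin (n + 1) → Fin q) : (cube (n + 1) q).Adj x y ↔
    (x 0 ≠ y 0 ∧ Fin.tail x = Fin.tail y) ∨
    (x 0 = y 0 ∧ (cube n q).Adj (Fin.tail x) (Fin.tail y)) := by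
  constructor
  · rintro ⟨i, hi, hu⟩
    by_cases h0 : x 0 = y 0
    · right
      refine ⟨h0, ?_⟩
      have hi0 : i ≠ 0 := by rintro rfl; exact hi h0
      obtain ⟨j, rfl⟩ := Fin.exists_succ_eq.2 hi0
      refine ⟨j, hi, ?_⟩
      intro l hl
      exact Fin.succ_injective _ (hu l.succ hl)
    · left
      refine ⟨h0, ?_⟩
      have h1 := hu 0 h0
      funext j
      by_contra hne
      have h2 := hu j.succ hne
      rw [← h1] at h2
      exact Fin.succ_ne_zero j h2
  · rintro (⟨h0, h1⟩ | ⟨h0, j, hj, hu⟩)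
    · refine ⟨0, h0, ?_⟩
      intro i hi
      by_contra hi0
      obtain ⟨j, rfl⟩ := Fin.exists_succ_eq.2 hi0
      exact hi (congrFun h1 j)
    · refine ⟨j.succ, hj, ?_⟩
      intro i hi
      have hi0 : i ≠ 0 := by rintro rfl; exact hi h0
      obtain ⟨l, rfl⟩ := Fin.exists_succ_eq.2 hi0
      rw [hu l hi]

/-- the padded set -/
def padS (q1 : Fin q) (S : Set (Fin n → Fin q)) : Set (Fin (n + 1) → Fin q) :=
  {z | z 0 = q1 ∨ (Fin.tail z : Fin n → Fin q) ∈ S}

lemma pad_nbr (q1 : Fin q) (S : Set (Fin n → Fin q)) (x : Fin (n + 1) → Fin q) (hx : x 0 ≠ q1)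
    (hS : (Fin.tail x : Fin n → Fin q) ∉ S) :
    ((cube (n + 1) q).neighborSet x ∩ padS q1 S).ncard =
      ((cube n q).neighborSet (Fin.tail x) ∩ S).ncard + 1 := by
  have h : (cube (n + 1) q).neighborSet x ∩ padS q1 S =
      insert (Fin.cons q1 (Fin.tail x) : Fin (n + 1) → Fin q)
        ((fun z => (Fin.cons (x 0) z : Fin (n + 1) → Fin q)) ''
          ((cube n q).neighborSet (Fin.tail x) ∩ S)) := by
    ext z
    constructor
    · rintro ⟨h1, h2⟩
      have h1' : (cube (n + 1) q).Adj x z := h1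
      rw [cube_adj_succ] at h1'
      rcases h1' with ⟨h3, h4⟩ | ⟨h3, h4⟩
      · left
        rcases h2 with h2 | h2
        · rw [h4, ← h2, Fin.cons_self_tail]
        · rw [← h4] at h2
          exact absurd h2 hS
      · right
        refine ⟨Fin.tail z, ⟨h4, ?_⟩, ?_⟩
        · rcases h2 with h2 | h2
          · rw [← h3] at h2
            exact absurd h2 hx
          · exact h2
        · simp only
          rw [h3, Fin.cons_self_tail]
    · rintro (rfl | ⟨z, ⟨h1, h2⟩, rfl⟩)
      · refine ⟨?_, Or.inl rfl⟩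
        change (cube (n + 1) q).Adj _ _
        rw [cube_adj_succ]
        left
        simpa using hx
      · refine ⟨?_, Or.inr h2⟩
        change (cube (n + 1) q).Adj _ _
        rw [cube_adj_succ]
        right
        exact ⟨rfl, h1⟩
  rw [h, Set.ncard_insert_of_notMem, Set.ncard_image_of_injective]
  · intro z z' hz
    exact (Fin.cons_injective2 hz).2
  · rintro ⟨z, -, hz⟩
    have := congrFun hz 0
    simp at this
    exact hx this

lemma pad_stage (q1 : Fin q) (r : ℕ) (A : Set (Fin n → Fin q)) (t : ℕ) :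
    stage (cube (n + 1) q) (r + 1) (padS q1 A) t = padS q1 (stage (cube n q) r A t) := by
  induction t with
  | zero => rfl
  | succ t ih =>
    change step _ _ (stage _ _ _ t) = _
    rw [ih]
    ext x
    by_cases hx : x 0 = q1
    · constructor
      · intro _; exact Or.inl hx
      · intro _; exact Or.inl (Or.inl hx)
    · by_cases hS : (Fin.tail x : Fin n → Fin q) ∈ stage (cube n q) r A t
      · constructor
        · intro _; exact Or.inr (Or.inl hS)
        · intro _; exact Or.inl (Or.inr hS)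
      · constructor
        · rintro (h | h)
          · rcases h with h | h
            · exact Or.inl h
            · exact Or.inr (Or.inl h)
          · right
            right
            have h' : r + 1 ≤ ((cube (n + 1) q).neighborSet x ∩
              padS q1 (stage (cube n q) r A t)).ncard := h
            rw [pad_nbr _ _ _ hx hS] at h'
            exact Nat.le_of_succ_le_succ h'
        · rintro (h | h)
          · exact absurd h hx
          · rcases h with h | h
            · exact absurd h hS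
            · right
              change r + 1 ≤ ((cube (n + 1) q).neighborSet x ∩
                padS q1 (stage (cube n q) r A t)).ncard
              rw [pad_nbr _ _ _ hx hS]
              exact Nat.succ_le_succ h

lemma has_pad {r T : ℕ} (q0 q1 : Fin q) (hq : q0 ≠ q1) (h : Has (cube n q) r T) :
    Has (cube (n + 1) q) (r + 1) T := by
  obtain ⟨A, h1, h2⟩ := h
  refine ⟨padS q1 A, ?_, ?_⟩
  · rw [Set.eq_univ_iff_forall]
    intro x
    have hx : (Fin.tail x : Fin n → Fin q) ∈ closure (cube n q) r A := by rw [h1]; trivial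
    obtain ⟨t, ht⟩ := Set.mem_iUnion.1 hx
    apply Set.mem_iUnion.2
    refine ⟨t, ?_⟩
    rw [pad_stage]
    exact Or.inr ht
  · rw [pad_stage]
    intro h
    apply h2
    rw [Set.eq_univ_iff_forall]
    intro z
    have : (Fin.cons q0 z : Fin (n + 1) → Fin q) ∈ padS q1 (stage (cube n q) r A T) := by
      rw [h]; trivial
    rcases this with h | h
    · simp at h
      exact absurd h hq
    · rwa [Fin.tail_cons] at h

lemma has_pad_many {r T : ℕ} (q0 q1 : Fin q) (hq : q0 ≠ q1) (h : Has (cube n q) r T) (k : ℕ) :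
    Has (cube (n + k) q) (r + k) T := by
  induction k with
  | zero => exact h
  | succ k ih => exact has_pad q0 q1 hq ih

end pad

lemma cube_degree (n q : ℕ) (v : Fin n → Fin q) :
    ((cube n q).neighborSet v).ncard = n * (q - 1) := by
  classical
  have h : (cube n q).neighborSet v =
      ((((Finset.univ : Finset (Fin n)).sigma (fun i => Finset.univ.erase (v i))).image
        (fun p : (_ : Fin n) × Fin q => Function.update v p.1 p.2) :
        Finset (Fin n → Fin q)) : Set (Fin n → Fin q)) := by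
    ext u
    simp only [Finset.coe_image, Set.mem_image, Finset.mem_coe, Finset.mem_sigma, Finset.mem_univ,
      true_and, Finset.mem_erase, and_true]
    constructor
    · rintro ⟨i, hi, hu⟩
      refine ⟨⟨i, u i⟩, fun h => hi h.symm, ?_⟩
      funext j
      by_cases hj : j = i
      · subst hj; simp
      · simp only [Function.update_of_ne hj]
        by_contra hne
        exact hj (hu j hne)
    · rintro ⟨⟨i, x⟩, hx, rfl⟩
      refine ⟨i, ?_, ?_⟩
      · simp only [Function.update_self]
        exact fun h => hx h.symm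
      · intro j hj
        by_contra hne
        apply hj
        simp only [Function.update_of_ne hne]
  rw [h, Set.ncard_coe_finset, Finset.card_image_of_injOn, Finset.card_sigma]
  · simp [Finset.card_erase_of_mem]
  · rintro ⟨i, x⟩ hx ⟨j, y⟩ hy hxy
    simp only [Finset.coe_sigma, Finset.coe_univ, Set.mem_sigma_iff, Set.mem_univ, true_and,
      Finset.mem_coe, Finset.mem_erase, Finset.mem_univ, and_true] at hx hy
    simp only at hxy
    have hij : i = j := by
      by_contra hne
      have := congrFun hxy i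
      simp only [Function.update_self, Function.update_of_ne hne] at this
      exact hx this
    subst hij
    have := congrFun hxy i
    simp only [Function.update_self] at this
    subst this
    rfl

lemma has_zero (n r m : ℕ) (h : r ≤ n * (m + 2)) : Has (cube n (m + 3)) r 0 := by
  refine ⟨{v | v ≠ 0}, ?_, ?_⟩
  · rw [Set.eq_univ_iff_forall]
    intro v
    by_cases hv : v = 0
    · subst hv
      apply stage_subset_closure 1
      right
      change r ≤ _
      have h1 : (cube n (m + 3)).neighborSet 0 ∩ stage (cube n (m + 3)) r {v | v ≠ 0} 0 =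
          (cube n (m + 3)).neighborSet 0 := by
        apply Set.inter_eq_left.2
        intro u hu
        change u ≠ 0
        rintro rfl
        exact (cube n (m + 3)).loopless.irrefl _ hu
      rw [h1, cube_degree]
      exact h
    · exact subset_closure' hv
  · intro h
    have : (0 : Fin n → Fin (m + 3)) ∈ stage (cube n (m + 3)) r {v | v ≠ 0} 0 := by
      rw [h]; trivial
    exact this rfl

lemma arith_aux (q L : ℕ) (hq : 3 ≤ q) (hL : 7 ≤ L) : 3 * (L + 8) ^ 3 * q ^ 3 < q ^ (L + 5) := by
  have e : q ^ (L + 5) = q ^ (L + 2) * q ^ 3 := by rw [← pow_add]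
  rw [e]
  apply Nat.mul_lt_mul_of_pos_right _ (by positivity)
  have h1 : 3 ^ (L + 2) ≤ q ^ (L + 2) := Nat.pow_le_pow_left hq _
  refine lt_of_lt_of_le ?_ h1
  clear h1 e
  induction L, hL using Nat.le_induction with
  | base => norm_num
  | succ L hL ih =>
    have e : 3 ^ (L + 1 + 2) = 3 * 3 ^ (L + 2) := by ring
    rw [e]
    have : (L + 1 + 8) ^ 3 ≤ 3 * (L + 8) ^ 3 := by nlinarith [sq_nonneg (L : ℤ)]
    omega

lemma cube_three (m n : ℕ) (hn : (m + 3) ^ 7 ≤ n) :
    ∃ T, Has (cube n (m + 3)) 3 T ∧ (m + 3) ^ n ≤ (m + 3) ^ 19 * n * T := by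
  set q := m + 3 with hq
  have hq3 : 3 ≤ q := by omega
  have hn0 : n ≠ 0 := by
    have : 0 < q ^ 7 := by positivity
    omega
  set L := Nat.log q n with hL
  have h1 : q ^ L ≤ n := Nat.pow_log_le_self q hn0
  have h2 : n < q ^ (L + 1) := Nat.lt_pow_succ_log_self (by omega) n
  have hL7 : 7 ≤ L := by
    rw [hL]
    exact (Nat.le_log_iff_pow_le (by omega) hn0).2 hn
  have h3 := arith_aux q L hq3 hL7
  have hpow : 3 * q ^ 4 ≤ q ^ 5 := by
    have : q ^ 5 = q * q ^ 4 := by ring
    rw [this]
    exact Nat.mul_le_mul_right _ hq3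
  -- bound for `a`
  have h4 : 9 * (n * q ^ 2) ≤ q ^ (L + 5) := by
    calc 9 * (n * q ^ 2) ≤ 9 * (q ^ (L + 1) * q ^ 2) := by
          apply Nat.mul_le_mul_left
          exact Nat.mul_le_mul_right _ h2.le
      _ = 9 * q ^ (L + 3) := by ring
      _ ≤ q * q * q ^ (L + 3) := by
          apply Nat.mul_le_mul_right
          nlinarith
      _ = q ^ (L + 5) := by ring
  have h5 : 2 * (L + 8) + 8 ≤ n := by
    have : 2 * (L + 8) + 8 ≤ q ^ L := by
      have h6 : 3 ^ L ≤ q ^ L := Nat.pow_le_pow_left hq3 _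
      refine le_trans ?_ h6
      clear_value L
      clear h6 h4 h3 h2 h1 hL hpow
      induction L, hL7 using Nat.le_induction with
      | base => norm_num
      | succ L hL ih =>
        have e : 3 ^ (L + 1) = 3 * 3 ^ L := by ring
        rw [e]
        omega
    omega
  obtain ⟨C, hC1, hC2⟩ := exists_dat m (n - 2 * (L + 8) - 8) (L + 5) (by
    rw [← hq]
    have e1 : (L + 5 + 3) = L + 8 := by ring
    rw [e1]
    have e2 : ((L + 8) * q) ^ 3 = (L + 8) ^ 3 * q ^ 3 := by ring
    rw [e2]
    have e3 : (n - 2 * (L + 8) - 8) * q ^ 2 ≤ n * q ^ 2 := by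
      apply Nat.mul_le_mul_right; omega
    have e4 : 3 * ((L + 8) ^ 3 * q ^ 3) < q ^ (L + 5) := by
      rw [← mul_assoc]; exact h3
    omega)
  have hcard : Fintype.card (Ix (n - 2 * (L + 8) - 8) (L + 5 + 3)) = n := by
    rw [card_ix]; omega
  have hHas : Has (GV m (n - 2 * (L + 8) - 8) (L + 5 + 3)) 3 (C.N * C.M0) :=
    ⟨C.A0, C.percolates, C.slow⟩
  refine ⟨C.N * C.M0, hHas.congr (isoCube n (Fintype.equivFinOfCardEq hcard)), ?_⟩
  rw [hC1, hC2, ← hq]
  have e1 : q ^ (n - 2 * (L + 8) - 8) * q ^ (L + 5) * (q ^ L * q ^ 19) = q ^ n := by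
    rw [← pow_add, ← pow_add, ← pow_add]
    congr 1
    omega
  calc q ^ n = q ^ (n - 2 * (L + 8) - 8) * q ^ (L + 5) * (q ^ L * q ^ 19) := e1.symm
    _ ≤ q ^ (n - 2 * (L + 8) - 8) * (2 * q ^ (L + 5)) * (n * q ^ 19) := by
        apply Nat.mul_le_mul
        · apply Nat.mul_le_mul_left; omega
        · exact Nat.mul_le_mul_right _ h1
    _ = _ := by ring

theorem lower_large (m r n : ℕ) (hr : 3 ≤ r) (hn : (m + 3) ^ 7 + (r - 3) ≤ n) :
    (m + 3) ^ n ≤ (m + 3) ^ (r + 16) * n * maxTime (cube n (m + 3)) r := by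
  obtain ⟨j, rfl⟩ : ∃ j, r = 3 + j := ⟨r - 3, by omega⟩
  obtain ⟨k, rfl⟩ : ∃ k, n = k + j := ⟨n - j, by omega⟩
  obtain ⟨T, h1, h2⟩ := cube_three m k (by omega)
  have h3 := (has_pad_many (0 : Fin (m + 3)) 1 (by simp [Fin.ext_iff]) h1 j).lt_maxTime
  set q := m + 3
  calc q ^ (k + j) = q ^ k * q ^ j := by rw [pow_add]
    _ ≤ q ^ 19 * k * T * q ^ j := Nat.mul_le_mul_right _ h2
    _ ≤ q ^ 19 * (k + j) * maxTime (cube (k + j) q) (3 + j) * q ^ j := by
        apply Nat.mul_le_mul_right
        apply Nat.mul_le_mul _ h3.le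
        apply Nat.mul_le_mul_left
        omega
    _ = _ := by
        have : q ^ (3 + j + 16) = q ^ 19 * q ^ j := by
          rw [show 3 + j + 16 = 19 + j by ring, pow_add]
        rw [this]; ring

theorem theta3 (m r : ℕ) (hr : 3 ≤ r) : ∃ c C : ℝ, 0 < c ∧ 0 < C ∧
    ∀ n : ℕ, r ≤ n * (m + 2) →
    c * (((m + 3 : ℕ) : ℝ) ^ n / n) ≤ (maxTime (cube n (m + 3)) r : ℝ) ∧
    (maxTime (cube n (m + 3)) r : ℝ) ≤ C * (((m + 3 : ℕ) : ℝ) ^ n / n) := by
  set q := m + 3 with hq
  have hq1 : (1 : ℝ) ≤ (q : ℝ) := by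
    have : 1 ≤ q := by omega
    exact_mod_cast this
  have hq0 : (0 : ℝ) < (q : ℝ) := by linarith
  refine ⟨1 / (q : ℝ) ^ (q ^ 7 + r + 16), r * (r + 2), by positivity, by positivity, ?_⟩
  intro n hn
  have hn1 : 1 ≤ n := by
    rcases Nat.eq_zero_or_pos n with h | h
    · subst h; omega
    · exact h
  have hn0 : (0 : ℝ) < n := by exact_mod_cast hn1
  constructor
  · rw [one_div_mul_eq_div, div_div, div_le_iff₀ (by positivity)]
    by_cases hbig : q ^ 7 + (r - 3) ≤ n
    · have h := lower_large m r n hr hbig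
      have h' : (q : ℝ) ^ n ≤ (q : ℝ) ^ (r + 16) * n * maxTime (cube n q) r := by exact_mod_cast h
      refine h'.trans ?_
      have h2 : (q : ℝ) ^ (r + 16) ≤ (q : ℝ) ^ (q ^ 7 + r + 16) :=
        pow_le_pow_right₀ hq1 (by omega)
      calc (q : ℝ) ^ (r + 16) * n * maxTime (cube n q) r
          ≤ (q : ℝ) ^ (q ^ 7 + r + 16) * n * maxTime (cube n q) r := by gcongr
        _ = _ := by ring
    · have h1 := (has_zero n r m hn).lt_maxTime
      have h1' : (1 : ℝ) ≤ maxTime (cube n q) r := by exact_mod_cast h1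
      have h2 : (q : ℝ) ^ n ≤ (q : ℝ) ^ (q ^ 7 + r + 16) := pow_le_pow_right₀ hq1 (by omega)
      have h3 : (1 : ℝ) ≤ n := by exact_mod_cast hn1
      calc (q : ℝ) ^ n ≤ 1 * (n * (q : ℝ) ^ (q ^ 7 + r + 16)) := by
            rw [one_mul]
            calc (q : ℝ) ^ n ≤ 1 * (q : ℝ) ^ (q ^ 7 + r + 16) := by rw [one_mul]; exact h2
              _ ≤ _ := by gcongr
        _ = 1 * ((q : ℝ) ^ (q ^ 7 + r + 16) * n) := by ring
        _ ≤ maxTime (cube n q) r * ((q : ℝ) ^ (q ^ 7 + r + 16) * n) := by gcongr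
        _ = _ := by ring
  · obtain ⟨A, hA, hAt⟩ := maxTime_mem (cube n q) r
    have hdeg : ∀ v, n * (m + 2) ≤ ((cube n q).neighborSet v).ncard := by
      intro v
      rw [cube_degree]
      exact le_of_eq rfl
    have h := upper (cube n q) (n * (m + 2)) r (by omega) hdeg A hA
    rw [← hAt] at h
    have hc : Fintype.card (Fin n → Fin q) = q ^ n := by simp
    rw [hc] at h
    have h' : (maxTime (cube n q) r : ℝ) * ((n * (m + 2) - (r - 1) : ℕ) : ℝ) ≤
        (q : ℝ) ^ n * (r + 2) := by
      exact_mod_cast h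
    have h2 : (n : ℝ) ≤ r * ((n * (m + 2) - (r - 1) : ℕ) : ℝ) := by
      have : n ≤ r * (n * (m + 2) - (r - 1)) := by
        obtain ⟨d, hd⟩ : ∃ d, n * (m + 2) = r + d := ⟨n * (m + 2) - r, by omega⟩
        have e : n * (m + 2) - (r - 1) = d + 1 := by omega
        rw [e]
        have e2 : n ≤ n * (m + 2) := Nat.le_mul_of_pos_right n (by omega)
        nlinarith
      exact_mod_cast this
    rw [← mul_div_assoc, le_div_iff₀ hn0]
    calc (maxTime (cube n q) r : ℝ) * n
        ≤ maxTime (cube n q) r * (r * ((n * (m + 2) - (r - 1) : ℕ) : ℝ)) := by gcongr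
      _ = r * (maxTime (cube n q) r * ((n * (m + 2) - (r - 1) : ℕ) : ℝ)) := by ring
      _ ≤ r * ((q : ℝ) ^ n * (r + 2)) := by gcongr
      _ = _ := by ring

/-- below the threshold degree nothing happens -/
lemma maxTime_zero (n q r : ℕ) (h : n * (q - 1) < r) : maxTime (cube n q) r = 0 := by
  obtain ⟨A, hA, hAt⟩ := maxTime_mem (cube n q) r
  rw [hAt]
  have hstep : ∀ B : Set (Fin n → Fin q), step (cube n q) r B = B := by
    intro B
    apply Set.Subset.antisymm
    · rintro v (hv | hv)
      · exact hv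
      · exfalso
        have h1 : r ≤ ((cube n q).neighborSet v ∩ B).ncard := hv
        have h2 := Set.ncard_le_ncard (Set.inter_subset_left : (cube n q).neighborSet v ∩ B ⊆ _)
          (Set.toFinite _)
        rw [cube_degree] at h2
        omega
    · exact Set.subset_union_left
  have hst : ∀ t, stage (cube n q) r A t = A := by
    intro t
    induction t with
    | zero => rfl
    | succ t ih =>
      change step _ _ (stage _ _ _ t) = _
      rw [ih, hstep]
  have hcl : closure (cube n q) r A = A := by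
    unfold Pool.Agent.TH479.BP.closure
    simp only [hst]
    exact Set.iUnion_const A
  have : time (cube n q) r A ≤ 0 :=
    Nat.sInf_le (s := {t | stage (cube n q) r A t = closure (cube n q) r A})
      (by
        change stage (cube n q) r A 0 = closure (cube n q) r A
        rw [hcl, hst])
  omega

theorem theta_all (q r : ℕ) (hq : 2 ≤ q) (hr : 3 ≤ r) : ∃ c C : ℝ, 0 < c ∧ 0 < C ∧
    ∀ n : ℕ, r ≤ n * (q - 1) →
    c * ((q : ℝ) ^ n / n) ≤ (maxTime (cube n q) r : ℝ) ∧
    (maxTime (cube n q) r : ℝ) ≤ C * ((q : ℝ) ^ n / n) := by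
  rcases Nat.lt_or_ge q 3 with h | h
  · have hq2 : q = 2 := by omega
    subst hq2
    obtain ⟨c, C, h1, h2, h3⟩ := Pool.Agent.TH479.BP.theta r hr
    refine ⟨c, C, h1, h2, ?_⟩
    intro n hn
    have := h3 n (by omega)
    exact_mod_cast this
  · obtain ⟨m, rfl⟩ : ∃ m, q = m + 3 := ⟨q - 3, by omega⟩
    exact theta3 m r hr

end Pool.Agent.Helper52.BPq
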