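import Pool.Agent.Helper52.BPq.Path

set_option autoImplicit false

/-!
Greedy choice of the syndrome maps.
-/

namespace Pool.Agent.Helper52.BPq

open Finset

section greedy

variable {G : Type*} [AddCommGroup G] [DecidableEq G]

lemma inner (S F : Finset G) (k : ℕ) (h : 2 * k * F.card < S.card) :
    ∃ φ : ℕ → G, (∀ x < k, φ x ∈ S) ∧ ∀ x < k, ∀ x' < k, x ≠ x' → φ x - φ x' ∉ F := by
  induction k with
  | zero => exact ⟨fun _ => 0, by intro x hx; omega, by intro x hx; omega⟩
  | succ k ih =>
    obtain ⟨φ, h1, h2⟩ := ih (by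
      refine lt_of_le_of_lt ?_ h
      apply Nat.mul_le_mul_right
      omega)
    let B : Finset G := (range k).biUnion
      (fun x => F.image (fun f => φ x + f) ∪ F.image (fun f => φ x - f))
    have hB : B.card ≤ k * (2 * F.card) := by
      have e : ∀ x ∈ range k,
          (F.image (fun f => φ x + f) ∪ F.image (fun f => φ x - f)).card ≤ 2 * F.card := by
        intro x _
        have g1 := Finset.card_union_le (F.image (fun f => φ x + f)) (F.image (fun f => φ x - f))
        have g2 : (F.image (fun f => φ x + f)).card ≤ F.card := Finset.card_image_le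
        have g3 : (F.image (fun f => φ x - f)).card ≤ F.card := Finset.card_image_le
        omega
      have := Finset.card_biUnion_le_card_mul (range k) _ _ e
      rwa [Finset.card_range] at this
    have hne : (S \ B).Nonempty := by
      rw [← Finset.card_pos]
      have g1 := Finset.le_card_sdiff B S
      have g2 : k * (2 * F.card) ≤ 2 * (k + 1) * F.card := by nlinarith
      omega
    obtain ⟨z, hz⟩ := hne
    rw [Finset.mem_sdiff] at hz
    refine ⟨fun x => if x = k then z else φ x, ?_, ?_⟩
    · intro x hx
      by_cases hk : x = k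
      · simp only [hk, if_true]; exact hz.1
      · simp only [hk, if_false]; exact h1 x (by omega)
    · intro x hx x' hx' hne hF
      by_cases hk : x = k
      · have hk' : x' ≠ k := by omega
        simp only [hk, if_true, hk', if_false] at hF
        apply hz.2
        refine Finset.mem_biUnion.2 ⟨x', Finset.mem_range.2 (by omega), Finset.mem_union_left _ ?_⟩
        exact Finset.mem_image.2 ⟨_, hF, by abel⟩
      · by_cases hk' : x' = k
        · simp only [hk, hk', if_true, if_false] at hF
          apply hz.2
          refine Finset.mem_biUnion.2 ⟨x, Finset.mem_range.2 (by omega),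
            Finset.mem_union_right _ ?_⟩
          exact Finset.mem_image.2 ⟨_, hF, by abel⟩
        · simp only [hk, hk', if_false] at hF
          exact h2 x (by omega) x' (by omega) hne hF

lemma outer (S F : Finset G) (q a : ℕ) (h : 2 * q * (F.card + a * q ^ 2) < S.card) :
    ∃ φ : ℕ → ℕ → G, (∀ i < a, ∀ x < q, φ i x ∈ S) ∧
      (∀ i < a, ∀ x < q, ∀ x' < q, x ≠ x' → φ i x - φ i x' ∉ F) ∧
      (∀ i < a, ∀ i' < a, i ≠ i' → ∀ x < q, ∀ x' < q, ∀ z < q, ∀ z' < q, x ≠ x' → z ≠ z' →
        φ i x - φ i x' ≠ φ i' z - φ i' z') := by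
  induction a with
  | zero => exact ⟨fun _ _ => 0, by intro i hi; omega, by intro i hi; omega, by intro i hi; omega⟩
  | succ a ih =>
    obtain ⟨φ, h1, h2, h3⟩ := ih (by
      refine lt_of_le_of_lt ?_ h
      apply Nat.mul_le_mul_left
      apply Nat.add_le_add_left
      apply Nat.mul_le_mul_right
      omega)
    let D : Finset G := (range a).biUnion
      (fun i => (range q ×ˢ range q).image (fun p => φ i p.1 - φ i p.2))
    have hD : D.card ≤ a * q ^ 2 := by
      have e : ∀ i ∈ range a,
          ((range q ×ˢ range q).image (fun p => φ i p.1 - φ i p.2)).card ≤ q ^ 2 := by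
        intro i _
        refine Finset.card_image_le.trans ?_
        simp [sq]
      have := Finset.card_biUnion_le_card_mul (range a) _ _ e
      rwa [Finset.card_range] at this
    obtain ⟨ψ, g1, g2⟩ := inner S (F ∪ D) q (by
      have e := Finset.card_union_le F D
      refine lt_of_le_of_lt ?_ h
      apply Nat.mul_le_mul_left
      have : a * q ^ 2 ≤ (a + 1) * q ^ 2 := Nat.mul_le_mul_right _ (by omega)
      omega)
    have key : ∀ i < a, ∀ x < q, ∀ x' < q, ∀ z < q, ∀ z' < q, x ≠ x' →
        ψ x - ψ x' ≠ φ i z - φ i z' := by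
      intro i hi x hx x' hx' z hz z' hz' hne he
      apply g2 x hx x' hx' hne
      apply Finset.mem_union_right
      refine Finset.mem_biUnion.2 ⟨i, Finset.mem_range.2 hi, ?_⟩
      exact Finset.mem_image.2 ⟨(z, z'), Finset.mem_product.2
        ⟨Finset.mem_range.2 hz, Finset.mem_range.2 hz'⟩, he.symm⟩
    refine ⟨fun i => if i = a then ψ else φ i, ?_, ?_, ?_⟩
    · intro i hi x hx
      by_cases hk : i = a
      · simp only [hk, if_true]; exact g1 x hx
      · simp only [hk, if_false]; exact h1 i (by omega) x hx
    · intro i hi x hx x' hx' hne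
      by_cases hk : i = a
      · simp only [hk, if_true]
        intro hF
        exact g2 x hx x' hx' hne (Finset.mem_union_left _ hF)
      · simp only [hk, if_false]; exact h2 i (by omega) x hx x' hx' hne
    · intro i hi i' hi' hii x hx x' hx' z hz z' hz' hne hne'
      by_cases hk : i = a
      · have hk' : i' ≠ a := by omega
        simp only [hk, if_true, hk', if_false]
        exact key i' (by omega) x hx x' hx' z hz z' hz' hne
      · by_cases hk' : i' = a
        · simp only [hk, if_false, hk', if_true]
          exact (key i (by omega) z hz z' hz' x hx x' hx' hne').symm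
        · simp only [hk, if_false, hk', if_false]
          exact h3 i (by omega) i' (by omega) hii x hx x' hx' z hz z' hz' hne hne'

end greedy

variable {m : ℕ}

lemma norm_peel {s k : ℕ} (hs : 0 < s) (x : Fin s → Z m) (h : hammingNorm x ≤ k + 1) :
    ∃ (i : Fin s) (c : Z m), hammingNorm (x - Pi.single i c) ≤ k := by
  by_cases hx : x = 0
  · refine ⟨⟨0, hs⟩, 0, ?_⟩
    subst hx
    simp
  · obtain ⟨i, hi⟩ : ∃ i, x i ≠ 0 := by
      by_contra hcon
      push Not at hcon
      exact hx (funext hcon)
    refine ⟨i, x i, ?_⟩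
    have e : (Finset.univ.filter (fun j => (x - Pi.single i (x i) : Fin s → Z m) j ≠ 0)) =
        (Finset.univ.filter (fun j => x j ≠ 0)).erase i := by
      ext j
      by_cases hj : j = i
      · subst hj; simp
      · simp [hj]
    unfold hammingNorm at h ⊢
    rw [e, Finset.card_erase_of_mem (by simpa using hi)]
    omega

/-- vectors of weight at most three -/
def lowW (m s : ℕ) : Finset (Fin s → Z m) :=
  (Finset.univ : Finset ((Fin s × Z m) × (Fin s × Z m) × (Fin s × Z m))).image
    (fun p => Pi.single p.1.1 p.1.2 + Pi.single p.2.1.1 p.2.1.2 + Pi.single p.2.2.1 p.2.2.2)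

lemma lowW_card (m s : ℕ) : (lowW m s).card ≤ (s * (m + 3)) ^ 3 := by
  refine Finset.card_image_le.trans ?_
  simp only [Finset.card_univ, Fintype.card_prod, Fintype.card_fin, ZMod.card]
  exact le_of_eq (by ring)

lemma norm_of_not_lowW {s : ℕ} (hs : 0 < s) {x : Fin s → Z m} (h : x ∉ lowW m s) :
    4 ≤ hammingNorm x := by
  by_contra hcon
  apply h
  obtain ⟨i, a, h1⟩ := norm_peel (k := 2) hs x (by omega)
  obtain ⟨j, b, h2⟩ := norm_peel (k := 1) hs _ h1
  obtain ⟨l, c, h3⟩ := norm_peel (k := 0) hs _ h2
  have h4 := hammingNorm_eq_zero.1 (Nat.le_zero.1 h3)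
  refine Finset.mem_image.2 ⟨((i, a), (j, b), (l, c)), Finset.mem_univ _, ?_⟩
  simp only
  rw [sub_sub, sub_sub, sub_eq_zero] at h4
  rw [h4, add_assoc]

end Pool.Agent.Helper52.BPq
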