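import Pool.Agent.Helper52.BPq.WSet
import Pool.Graph.R_seed8.TH479.BP.Main

set_option autoImplicit false

/-!
Layers: the binary layers and the seeds.
-/

namespace Pool.Agent.Helper52.BPq

open Set
open Pool.Agent.TH479.BP (ee enc enc_flip enc_lt isH memG memP hb isP3)

variable {m : ℕ}

lemma zm01 : (0 : Z m) ≠ 1 := zero_ne_one
lemma zm2 : (2 : Z m) ≠ 0 ∧ (2 : Z m) ≠ 1 := by
  constructor
  · intro h
    have := natCast_inj' (m := m) (c := 2) (c' := 0) (by omega) (by omega) (by exact_mod_cast h)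
    omega
  · intro h
    have := natCast_inj' (m := m) (c := 2) (c' := 1) (by omega) (by omega) (by exact_mod_cast h)
    omega

/-- the embedding of the binary layers -/
def io (b : Fin 8 → ZMod 2) : Fin 8 → Z m := fun i => if b i = 0 then 0 else 1

/-- the binary code of a layer -/
def bc (ℓ : Fin 8 → Z m) : Fin 8 → ZMod 2 := fun i => if ℓ i = 0 then 0 else 1

lemma z2 (x : ZMod 2) : x = 0 ∨ x = 1 := Pool.Agent.TH479.BP.zmod2_cases x

lemma bc_io (b : Fin 8 → ZMod 2) : bc (io b : Fin 8 → Z m) = b := by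
  funext i
  rcases z2 (b i) with h | h
  · simp [bc, io, h]
  · simp [bc, io, h]

lemma io_inj {b b' : Fin 8 → ZMod 2} (h : (io b : Fin 8 → Z m) = io b') : b = b' := by
  rw [← bc_io (m := m) b, h, bc_io]

lemma io_apply_eq {b b' : Fin 8 → ZMod 2} {i : Fin 8} :
    (io b : Fin 8 → Z m) i = io b' i ↔ b i = b' i := by
  constructor
  · intro h
    rcases z2 (b i) with h1 | h1 <;> rcases z2 (b' i) with h2 | h2 <;> simp [io, h1, h2] at h ⊢
  · intro h; simp [io, h]

lemma io_01 (b : Fin 8 → ZMod 2) (i : Fin 8) : (io b : Fin 8 → Z m) i = 0 ∨ (io b : Fin 8 → Z m) i = 1 := by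
  unfold io
  split_ifs
  · exact Or.inl rfl
  · exact Or.inr rfl

/-- binary vectors agreeing off one coordinate -/
lemma agree_off {b b' : Fin 8 → ZMod 2} {k : Fin 8} (h : ∀ j, j ≠ k → b j = b' j) :
    b' = b ∨ b' = b + ee k := by
  by_cases hk : b k = b' k
  · left
    funext j
    by_cases hj : j = k
    · rw [hj, hk]
    · rw [h j hj]
  · right
    funext j
    by_cases hj : j = k
    · subst hj
      have e : ∀ x y : ZMod 2, x ≠ y → y = x + 1 := by decide
      simpa using e _ _ hk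
    · simp [hj, h j hj]

lemma off_of_add {b : Fin 8 → ZMod 2} {k j : Fin 8} (h : j ≠ k) : (b + ee k) j = b j := by
  simp [h]

lemma on_of_add {b : Fin 8 → ZMod 2} {k : Fin 8} : (b + ee k) k = b k + 1 := by
  simp

/-- set of big coordinates -/
def bg (ℓ : Fin 8 → Z m) : Finset (Fin 8) := Finset.univ.filter (fun i => ℓ i ≠ 0 ∧ ℓ i ≠ 1)

lemma mem_bg {ℓ : Fin 8 → Z m} {i : Fin 8} : i ∈ bg ℓ ↔ ℓ i ≠ 0 ∧ ℓ i ≠ 1 := by
  simp [bg]

lemma not_mem_bg {ℓ : Fin 8 → Z m} {i : Fin 8} : i ∉ bg ℓ ↔ ℓ i = 0 ∨ ℓ i = 1 := by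
  rw [mem_bg]; tauto

lemma bg_io (b : Fin 8 → ZMod 2) : bg (io b : Fin 8 → Z m) = ∅ := by
  rw [Finset.eq_empty_iff_forall_notMem]
  intro i
  rw [not_mem_bg]
  exact io_01 b i

lemma io_bc {ℓ : Fin 8 → Z m} (h : bg ℓ = ∅) : io (bc ℓ) = ℓ := by
  funext i
  have h1 : i ∉ bg ℓ := by rw [h]; simp
  rcases not_mem_bg.1 h1 with h2 | h2
  · simp [io, bc, h2]
  · simp [io, bc, h2]

/-- binary neighbours of a binary layer -/
lemma io_nbr {b : Fin 8 → ZMod 2} {ℓ : Fin 8 → Z m} (h : hammingDist (io b) ℓ = 1)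
    (hb : bg ℓ = ∅) : ∃ k, ℓ = io (b + ee k) := by
  obtain ⟨k, h1, h2⟩ := hd_one h
  refine ⟨k, ?_⟩
  rw [← io_bc hb]
  congr 1
  have h3 : ∀ j, j ≠ k → b j = bc ℓ j := by
    intro j hj
    have := h2 j hj
    rw [← io_bc hb] at this
    exact io_apply_eq.1 this
  rcases agree_off h3 with h4 | h4
  · exfalso
    apply h1
    rw [← io_bc hb, h4]
  · exact h4

lemma io_flip (b : Fin 8 → ZMod 2) (k : Fin 8) :
    hammingDist (io b : Fin 8 → Z m) (io (b + ee k)) = 1 := by
  rw [hd_one_iff]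
  refine ⟨k, ?_, ?_⟩
  · intro h
    have := io_apply_eq.1 h
    rw [on_of_add] at this
    have e : ∀ x : ZMod 2, x ≠ x + 1 := by decide
    exact e _ this
  · intro j hj
    exact io_apply_eq.2 (off_of_add hj).symm

/-- codes of the seed layers -/
def sc : Fin 8 → ℕ := ![8, 16, 3, 17, 10, 11, 15, 20]

/-- binary base of the seed layers -/
def sb (l : Fin 8) : Fin 8 → ZMod 2 := fun i => if Nat.testBit (sc l) i.val then 1 else 0

lemma enc_sb : ∀ l, enc (sb l) = sc l := by decide +kernel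

/-- the seed layer of direction `l` -/
def sl (l : Fin 8) : Fin 8 → Z m := Function.update (io (sb l)) l 2

lemma sl_self (l : Fin 8) : (sl l : Fin 8 → Z m) l = 2 := by simp [sl]
lemma sl_of_ne {l j : Fin 8} (h : j ≠ l) : (sl l : Fin 8 → Z m) j = io (sb l) j := by
  simp [sl, h]

lemma bg_sl (l : Fin 8) : bg (sl l : Fin 8 → Z m) = {l} := by
  ext i
  rw [mem_bg, Finset.mem_singleton]
  by_cases h : i = l
  · subst h
    rw [sl_self]
    exact ⟨fun _ => rfl, fun _ => zm2⟩
  · rw [sl_of_ne h]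
    constructor
    · rintro ⟨h1, h2⟩
      rcases io_01 (m := m) (sb l) i with h3 | h3
      · exact absurd h3 h1
      · exact absurd h3 h2
    · intro h'; exact absurd h' h

lemma sl_inj {l l' : Fin 8} (h : (sl l : Fin 8 → Z m) = sl l') : l = l' := by
  have h1 := bg_sl (m := m) l
  rw [h, bg_sl] at h1
  exact (Finset.singleton_inj.1 h1).symm

lemma sl_ne_io (l : Fin 8) (b : Fin 8 → ZMod 2) : (sl l : Fin 8 → Z m) ≠ io b := by
  intro h
  have h1 := bg_sl (m := m) l
  rw [h, bg_io] at h1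
  exact absurd h1.symm (Finset.singleton_ne_empty l)

/-- a binary layer next to a seed layer -/
lemma sl_io {l : Fin 8} {b : Fin 8 → ZMod 2} (h : hammingDist (io b) (sl l : Fin 8 → Z m) = 1) :
    b = sb l ∨ b = sb l + ee l := by
  obtain ⟨k, h1, h2⟩ := hd_one h
  have hk : l = k := by
    by_contra hne
    have := h2 l hne
    rw [sl_self] at this
    rcases io_01 (m := m) b l with h3 | h3
    · exact zm2.1 (this.symm.trans h3)
    · exact zm2.2 (this.symm.trans h3)
  subst hk
  apply agree_off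
  intro j hj
  have := h2 j hj
  rw [sl_of_ne hj] at this
  exact (io_apply_eq.1 this).symm

set_option maxRecDepth 100000 in
lemma seed_other : ∀ l : Fin 8, ∀ d : Bool, ∀ c0 c1 c3 cE : Bool,
    memG (if d then sc l ^^^ 2 ^ l.val else sc l) c0 c1 c3 cE = false ∧
    memP (if d then sc l ^^^ 2 ^ l.val else sc l) c0 c1 c3 = false ∧
    hb (if d then sc l ^^^ 2 ^ l.val else sc l) = 0 := by
  decide +kernel

set_option maxRecDepth 100000 in
lemma seed_card : ∀ l : Fin 8, ∀ d : Bool, ∀ cE : Bool,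
    (Finset.univ.filter (fun k : Fin 8 =>
      (memG ((if d then sc l ^^^ 2 ^ l.val else sc l) ^^^ 2 ^ k.val) false false false false ||
      (!cE && memP ((if d then sc l ^^^ 2 ^ l.val else sc l) ^^^ 2 ^ k.val) false false false))
        = true)).card ≤ 1 := by
  decide +kernel

set_option maxRecDepth 100000 in
lemma seed_disj : ∀ l l' : Fin 8, ∀ d d' : Bool,
    (if d then sc l ^^^ 2 ^ l.val else sc l) = (if d' then sc l' ^^^ 2 ^ l'.val else sc l') →
    l = l' := by
  decide +kernel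

set_option maxRecDepth 100000 in
lemma seed_H : ∀ l k : Fin 8, k ≠ l →
    ¬ (isH (sc l ^^^ 2 ^ k.val) = true ∧ isH (sc l ^^^ 2 ^ k.val ^^^ 2 ^ l.val) = true) := by
  decide +kernel

set_option maxRecDepth 100000 in
lemma memG_false : ∀ n : Fin 256, memG n.val false false false false = isH n.val ∧
    memP n.val false false false = false := by
  decide +kernel

/-- codes of the two ends of a seed line -/
lemma seed_code {l : Fin 8} {b : Fin 8 → ZMod 2} (h : b = sb l ∨ b = sb l + ee l) :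
    ∃ d : Bool, enc b = if d then sc l ^^^ 2 ^ l.val else sc l := by
  rcases h with h | h
  · exact ⟨false, by rw [h, enc_sb]; rfl⟩
  · exact ⟨true, by rw [h, enc_flip, enc_sb]; rfl⟩

end Pool.Agent.Helper52.BPq
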