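import Mathlib

set_option autoImplicit false

/-!
Long paths in the Hamming graph over `ZMod (m + 3)`.
-/

namespace Pool.Agent.Helper52.BPq

open Finset

/-- the alphabet -/
abbrev Z (m : ℕ) : Type := ZMod (m + 3)

instance fact_one_lt (m : ℕ) : Fact (1 < m + 3) := ⟨by omega⟩

variable {m : ℕ}

lemma hd_cons {n : ℕ} (a b : Z m) (x y : Fin n → Z m) :
    hammingDist (Fin.cons a x : Fin (n + 1) → Z m) (Fin.cons b y) =
      (if a = b then 0 else 1) + hammingDist x y := by
  unfold hammingDist
  rw [Fin.card_filter_univ_succ]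
  simp only [Fin.cons_zero, Fin.cons_succ, ne_eq]
  by_cases h : a = b
  · simp [h]
  · simp [h, add_comm]

lemma hd_add_right {n : ℕ} (x y z : Fin n → Z m) :
    hammingDist (x + z) (y + z) = hammingDist x y := by
  unfold hammingDist
  congr 1
  ext i
  simp

lemma hd_add_left {n : ℕ} (x y z : Fin n → Z m) :
    hammingDist (z + x) (z + y) = hammingDist x y := by
  unfold hammingDist
  congr 1
  ext i
  simp

lemma hd_sub_right {n : ℕ} (x y z : Fin n → Z m) :
    hammingDist (x - z) (y - z) = hammingDist x y := by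
  unfold hammingDist
  congr 1
  ext i
  simp

lemma hd_sub_left {n : ℕ} (x y z : Fin n → Z m) :
    hammingDist (z - x) (z - y) = hammingDist x y := by
  unfold hammingDist
  congr 1
  ext i
  simp

lemma hd_eq_norm {n : ℕ} (x y : Fin n → Z m) : hammingDist x y = hammingNorm (x - y) := by
  unfold hammingDist hammingNorm
  congr 1
  ext i
  simp [sub_eq_zero]

/-- `p` is a path with `M` vertices from `0` -/
structure IsP {s : ℕ} (M : ℕ) (p : ℕ → (Fin s → Z m)) : Prop where
  pos : 0 < M
  zero : p 0 = 0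
  adj : ∀ t, t + 1 < M → hammingDist (p t) (p (t + 1)) = 1
  inj : ∀ t t', t < M → t' < M → p t = p t' → t = t'

/-- go through `m + 3` copies -/
def lift {s : ℕ} (M : ℕ) (ε : Z m) (p : ℕ → (Fin s → Z m)) : ℕ → (Fin (s + 1) → Z m) :=
  fun t => Fin.cons (ε * ((t / M : ℕ) : Z m)) (p (t % M) + ((t / M : ℕ) : Z m) • p (M - 1))

lemma natCast_inj' {c c' : ℕ} (hc : c < m + 3) (hc' : c' < m + 3) (h : (c : Z m) = (c' : Z m)) :
    c = c' := by
  have h1 := congrArg ZMod.val h
  rwa [ZMod.val_natCast_of_lt hc, ZMod.val_natCast_of_lt hc'] at h1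

lemma lift_isP {s M : ℕ} {ε : Z m} (hε : ε * ε = 1) {p : ℕ → (Fin s → Z m)} (hp : IsP M p) :
    IsP ((m + 3) * M) (lift M ε p) := by
  have hM := hp.pos
  have hcancel : ∀ x y : Z m, ε * x = ε * y → x = y := by
    intro x y h
    have := congrArg (fun z => ε * z) h
    simpa [← mul_assoc, hε] using this
  refine ⟨Nat.mul_pos (by omega) hM, ?_, ?_, ?_⟩
  · unfold lift
    simp only [Nat.zero_div, Nat.cast_zero, mul_zero, Nat.zero_mod, zero_smul, add_zero, hp.zero]
    funext i
    refine Fin.cases ?_ (fun j => ?_) i <;> simp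
  · intro t ht
    unfold lift
    rw [hd_cons]
    have hlt : t % M < M := Nat.mod_lt _ hM
    have hdm : M * (t / M) + t % M = t := Nat.div_add_mod t M
    by_cases hc : t % M + 1 < M
    · have e1 : (t + 1) / M = t / M := by
        rw [Nat.div_eq_of_lt_le]
        · rw [mul_comm]; omega
        · have : (t / M + 1) * M = M * (t / M) + M := by ring
          rw [this]; omega
      have e2 : (t + 1) % M = t % M + 1 := by
        have := Nat.div_add_mod (t + 1) M
        rw [e1] at this
        omega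
      rw [e1, e2, if_pos rfl, zero_add, hd_add_right]
      exact hp.adj _ hc
    · have e0 : t % M = M - 1 := by omega
      have e1 : (t + 1) / M = t / M + 1 := by
        rw [Nat.div_eq_of_lt_le]
        · have : (t / M + 1) * M = M * (t / M) + M := by ring
          rw [this]; omega
        · have : (t / M + 1 + 1) * M = M * (t / M) + M + M := by ring
          rw [this]; omega
      have e2 : (t + 1) % M = 0 := by
        have h1 := Nat.div_add_mod (t + 1) M
        have h2 : M * (t / M + 1) = M * (t / M) + M := by ring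
        rw [e1, h2] at h1
        omega
      rw [e1, e2, e0, if_neg, hp.zero]
      · have : p (M - 1) + ((t / M : ℕ) : Z m) • p (M - 1) =
            0 + ((t / M + 1 : ℕ) : Z m) • p (M - 1) := by
          rw [Nat.cast_add, Nat.cast_one, add_smul, one_smul, zero_add, add_comm]
        rw [this, hammingDist_self]
      · intro h
        have h1 := hcancel _ _ h
        rw [Nat.cast_add, Nat.cast_one] at h1
        have h2 : (1 : Z m) = 0 := by
          have := congrArg (fun z => z - ((t / M : ℕ) : Z m)) h1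
          simpa using this.symm
        exact one_ne_zero h2
  · intro t t' ht ht' h
    unfold lift at h
    have h1 := Fin.cons_injective2 h
    have hd : t / M < m + 3 := Nat.div_lt_of_lt_mul (by rwa [mul_comm])
    have hd' : t' / M < m + 3 := Nat.div_lt_of_lt_mul (by rwa [mul_comm])
    have e1 := natCast_inj' hd hd' (hcancel _ _ h1.1)
    have h2 := h1.2
    rw [e1] at h2
    have e2 := hp.inj _ _ (Nat.mod_lt _ hM) (Nat.mod_lt _ hM) (add_right_cancel h2)
    rw [← Nat.div_add_mod t M, ← Nat.div_add_mod t' M, e1, e2]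

/-- every vector that should be on the path is on it -/
lemma lift_surj {s M : ℕ} {ε : Z m} (hε : ε * ε = 1) {p : ℕ → (Fin s → Z m)} (hp : IsP M p)
    (x : Fin (s + 1) → Z m)
    (h : ∃ t < M, p t = Fin.tail x - (ε * x 0) • p (M - 1)) :
    ∃ t < (m + 3) * M, lift M ε p t = x := by
  obtain ⟨t, ht, hx⟩ := h
  have hM := hp.pos
  set c := (ε * x 0).val with hc
  have hc3 : c < m + 3 := ZMod.val_lt _
  have hcc : ((c : ℕ) : Z m) = ε * x 0 := by rw [hc, ZMod.natCast_val, ZMod.cast_id]
  refine ⟨c * M + t, ?_, ?_⟩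
  · calc c * M + t < c * M + M := by omega
      _ = (c + 1) * M := by ring
      _ ≤ (m + 3) * M := Nat.mul_le_mul_right _ hc3
  · have e1 : (c * M + t) / M = c := by
      rw [mul_comm, Nat.mul_add_div hM, Nat.div_eq_of_lt ht, add_zero]
    have e2 : (c * M + t) % M = t := by
      rw [mul_comm, Nat.mul_add_mod, Nat.mod_eq_of_lt ht]
    unfold lift
    rw [e1, e2, hcc, hx, ← mul_assoc, hε, one_mul, sub_add_cancel]
    exact Fin.cons_self_tail x

/-- Hamiltonian paths -/
def yp (m : ℕ) : ∀ s : ℕ, ℕ → (Fin s → Z m)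
  | 0 => fun _ => 0
  | s + 1 => lift ((m + 3) ^ s) 1 (yp m s)

lemma yp_isP (m : ℕ) : ∀ s, IsP ((m + 3) ^ s) (yp m s)
  | 0 => ⟨by simp, rfl, by intro t ht; simp at ht, by intro t t' ht ht' _; simp at ht ht'; omega⟩
  | s + 1 => by
    have h := lift_isP (ε := (1 : Z m)) (by simp) (yp_isP m s)
    rw [pow_succ, mul_comm]
    exact h

lemma yp_surj (m : ℕ) : ∀ s, ∀ x : Fin s → Z m, ∃ t < (m + 3) ^ s, yp m s t = x
  | 0 => fun x => ⟨0, by simp, Subsingleton.elim _ _⟩
  | s + 1 => by
    intro x
    have h := lift_surj (ε := (1 : Z m)) (by simp) (yp_isP m s) x (yp_surj m s _)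
    rw [pow_succ, mul_comm]
    exact h

/-- sum of the coordinates -/
def sg {s : ℕ} (x : Fin s → Z m) : Z m := ∑ i, x i

lemma sg_add {s : ℕ} (x y : Fin s → Z m) : sg (x + y) = sg x + sg y := by
  simp [sg, Finset.sum_add_distrib]

lemma sg_sub {s : ℕ} (x y : Fin s → Z m) : sg (x - y) = sg x - sg y := by
  simp [sg, Finset.sum_sub_distrib]

lemma sg_smul {s : ℕ} (c : Z m) (x : Fin s → Z m) : sg (c • x) = c * sg x := by
  simp [sg, Finset.mul_sum]

lemma sg_cons {s : ℕ} (a : Z m) (x : Fin s → Z m) :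
    sg (Fin.cons a x : Fin (s + 1) → Z m) = a + sg x := by
  simp [sg, Fin.sum_univ_succ]

lemma sg_tail {s : ℕ} (x : Fin (s + 1) → Z m) : sg (Fin.tail x) = sg x - x 0 := by
  simp [sg, Fin.sum_univ_succ, Fin.tail]

/-- the zigzag path through `{sg = 0}` and `{sg = 1}` -/
def up (m : ℕ) : ∀ s : ℕ, ℕ → (Fin (s + 1) → Z m)
  | 0 => fun t => fun _ => (t : Z m)
  | s + 1 => lift (2 * (m + 3) ^ s) (-1) (up m s)

lemma up_isP (m : ℕ) : ∀ s, IsP (2 * (m + 3) ^ s) (up m s)
  | 0 => by
    refine ⟨by simp, ?_, ?_, ?_⟩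
    · funext i; simp [up]
    · intro t ht
      have : t = 0 := by simp at ht; omega
      subst this
      simp only [up]
      unfold hammingDist
      rw [Finset.filter_true_of_mem]
      · simp
      · intro i _
        simp only [Nat.cast_zero, zero_add, Nat.cast_one, ne_eq]
        exact zero_ne_one
    · intro t t' ht ht' h
      simp only [pow_zero, mul_one] at ht ht'
      exact natCast_inj' (by omega) (by omega) (congrFun h 0)
  | s + 1 => by
    have h := lift_isP (ε := (-1 : Z m)) (by simp) (up_isP m s)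
    have e : 2 * (m + 3) ^ (s + 1) = (m + 3) * (2 * (m + 3) ^ s) := by ring
    rw [e]
    exact h

lemma up_sg (m : ℕ) : ∀ s t, sg (up m s t) = ((t % 2 : ℕ) : Z m) ∨ 2 * (m + 3) ^ s ≤ t := by
  intro s
  induction s with
  | zero =>
    intro t
    by_cases ht : t < 2
    · left
      simp only [up, sg]
      have : t % 2 = t := Nat.mod_eq_of_lt ht
      rw [this]
      simp
    · right; simp; omega
  | succ s ih =>
    intro t
    by_cases ht : 2 * (m + 3) ^ (s + 1) ≤ t
    · exact Or.inr ht
    left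
    have hM : 0 < 2 * (m + 3) ^ s := by positivity
    simp only [up, lift]
    rw [sg_cons, sg_add, sg_smul]
    have h1 : sg (up m s (2 * (m + 3) ^ s - 1)) = 1 := by
      rcases ih (2 * (m + 3) ^ s - 1) with h | h
      · rw [h]
        have : (2 * (m + 3) ^ s - 1) % 2 = 1 := by omega
        rw [this, Nat.cast_one]
      · omega
    have h2 : sg (up m s (t % (2 * (m + 3) ^ s))) = ((t % 2 : ℕ) : Z m) := by
      rcases ih (t % (2 * (m + 3) ^ s)) with h | h
      · rw [h, Nat.mod_mod_of_dvd _ (Dvd.intro _ rfl)]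
      · have := Nat.mod_lt t hM
        omega
    rw [h1, h2]
    ring

lemma up_sg_lt {m s t : ℕ} (ht : t < 2 * (m + 3) ^ s) : sg (up m s t) = ((t % 2 : ℕ) : Z m) := by
  rcases up_sg m s t with h | h
  · exact h
  · omega

lemma up_surj (m : ℕ) : ∀ s, ∀ x : Fin (s + 1) → Z m, sg x = 0 ∨ sg x = 1 →
    ∃ t < 2 * (m + 3) ^ s, up m s t = x := by
  intro s
  induction s with
  | zero =>
    intro x hx
    have e : sg x = x 0 := by simp [sg]
    rw [e] at hx
    rcases hx with hx | hx
    · refine ⟨0, by simp, ?_⟩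
      funext i
      have : i = 0 := Fin.ext (by omega)
      subst this
      simp [up, hx]
    · refine ⟨1, by simp, ?_⟩
      funext i
      have : i = 0 := Fin.ext (by omega)
      subst this
      simp [up, hx]
  | succ s ih =>
    intro x hx
    have hM : 0 < 2 * (m + 3) ^ s := by positivity
    have h := lift_surj (ε := (-1 : Z m)) (by simp) (up_isP m s) x (ih _ (by
      rw [sg_sub, sg_smul, sg_tail, up_sg_lt (by omega)]
      have : (2 * (m + 3) ^ s - 1) % 2 = 1 := by omega
      rw [this, Nat.cast_one]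
      have e : sg x - x 0 - -1 * x 0 * 1 = sg x := by ring
      rw [e]
      exact hx))
    have e : 2 * (m + 3) ^ (s + 1) = (m + 3) * (2 * (m + 3) ^ s) := by ring
    rw [e]
    exact h

/-- vectors at distance one differ by a multiple of a unit vector -/
lemma hd_one {s : ℕ} {x y : Fin s → Z m} (h : hammingDist x y = 1) :
    ∃ i, x i ≠ y i ∧ ∀ j, j ≠ i → x j = y j := by
  unfold hammingDist at h
  rw [Finset.card_eq_one] at h
  obtain ⟨i, hi⟩ := h
  refine ⟨i, ?_, ?_⟩
  · have : i ∈ ({i} : Finset (Fin s)) := Finset.mem_singleton_self i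
    rw [← hi] at this
    simpa using this
  · intro j hj
    by_contra hne
    have : j ∈ ({i} : Finset (Fin s)) := by
      rw [← hi]
      simpa using hne
    exact hj (Finset.mem_singleton.1 this)

lemma hd_one_iff {s : ℕ} {x y : Fin s → Z m} : hammingDist x y = 1 ↔
    ∃ i, x i ≠ y i ∧ ∀ j, j ≠ i → x j = y j := by
  constructor
  · exact hd_one
  · rintro ⟨i, h1, h2⟩
    unfold hammingDist
    rw [Finset.card_eq_one]
    refine ⟨i, ?_⟩
    ext j
    simp only [ne_eq, Finset.mem_filter, Finset.mem_univ, true_and, Finset.mem_singleton]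
    constructor
    · intro hj
      by_contra hne
      exact hj (h2 j hne)
    · rintro rfl
      exact h1

lemma sg_of_hd_one {s : ℕ} {x y : Fin s → Z m} {i : Fin s} (h : ∀ j, j ≠ i → x j = y j) :
    sg x - sg y = x i - y i := by
  rw [← sg_sub]
  unfold sg
  rw [Finset.sum_eq_single i]
  · rfl
  · intro j _ hj
    simp [h j hj]
  · intro h; simp at h

/-- adjacent vectors have different sums -/
lemma sg_ne {s : ℕ} {x y : Fin s → Z m} (h : hammingDist x y = 1) : sg x ≠ sg y := by
  obtain ⟨i, h1, h2⟩ := hd_one h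
  have h3 := sg_of_hd_one h2
  intro h4
  rw [h4, sub_self] at h3
  exact h1 (sub_eq_zero.1 h3.symm)

/-- no triangles on the zigzag path -/
lemma up_thin {m s t t' t'' : ℕ} (ht : t < 2 * (m + 3) ^ s) (ht' : t' < 2 * (m + 3) ^ s)
    (ht'' : t'' < 2 * (m + 3) ^ s) (h1 : hammingDist (up m s t) (up m s t') = 1)
    (h2 : hammingDist (up m s t') (up m s t'') = 1)
    (h3 : hammingDist (up m s t) (up m s t'') = 1) : False := by
  have g1 := sg_ne h1
  have g2 := sg_ne h2
  have g3 := sg_ne h3
  rw [up_sg_lt ht, up_sg_lt ht'] at g1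
  rw [up_sg_lt ht', up_sg_lt ht''] at g2
  rw [up_sg_lt ht, up_sg_lt ht''] at g3
  have a1 : t % 2 ≠ t' % 2 := fun h => g1 (by rw [h])
  have a2 : t' % 2 ≠ t'' % 2 := fun h => g2 (by rw [h])
  have a3 : t % 2 ≠ t'' % 2 := fun h => g3 (by rw [h])
  omega

end Pool.Agent.Helper52.BPq
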