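import Pool.Agent.Helper52.BPq.Cert

set_option autoImplicit false

/-!
The slow set percolates.
-/

namespace Pool.Agent.Helper52.BPq

open Set
open Pool.Agent.TH479.BP (ee enc enc_flip enc_lt isH memG memP hb isP0 isP1 isP3 isG0 isG1 isG3 isGE
  tab_guard tab_ord enc_124 add_add2 ord closure stage closed_closure subset_closure' three_le
  le_of_mem_stage)

variable {m a s : ℕ}

lemma vec_chain {n : ℕ} (P : (Fin n → Z m) → Prop) (x0 x : Fin n → Z m) (h0 : P x0)
    (hs : ∀ z z', (∀ i, z i = x0 i ∨ z i = x i) → (∀ i, z' i = x0 i ∨ z' i = x i) →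
      hammingDist z z' = 1 → P z → P z') : P x := by
  classical
  have key : ∀ S : Finset (Fin n), P (fun i => if i ∈ S then x i else x0 i) := by
    intro S
    induction S using Finset.induction_on with
    | empty => simpa using h0
    | insert j S hj ih =>
      by_cases hjx : x j = x0 j
      · have e : (fun i => if i ∈ insert j S then x i else x0 i) =
            (fun i => if i ∈ S then x i else x0 i) := by
          funext i
          by_cases hi : i = j
          · subst hi; simp [hj, hjx]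
          · simp [Finset.mem_insert, hi]
        rw [e]; exact ih
      · refine hs _ _ ?_ ?_ ?_ ih
        · intro i
          by_cases hi : i ∈ S
          · right; simp [hi]
          · left; simp [hi]
        · intro i
          by_cases hi : i ∈ insert j S
          · right; simp only [hi, if_true]
          · left; simp only [hi, if_false]
        · rw [hd_one_iff]
          refine ⟨j, ?_, ?_⟩
          · simp only [hj, if_false, Finset.mem_insert_self, if_true]
            exact fun h => hjx h.symm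
          · intro i hi
            simp [Finset.mem_insert, hi]
  have h := key Finset.univ
  simpa using h

lemma vec_induct {n : ℕ} (P : (Fin n → Z m) → Prop) (x0 : Fin n → Z m) (h0 : P x0)
    (hs : ∀ z z', hammingDist z z' = 1 → P z → P z') (x : Fin n → Z m) : P x :=
  vec_chain P x0 x h0 (fun z z' _ _ h => hs z z' h)

lemma W_induct (P : W m a s → Prop) (w0 : W m a s) (h0 : P w0)
    (hs : ∀ w w', dW w w' = 1 → P w → P w') (w : W m a s) : P w := by
  obtain ⟨y, ρ, κ⟩ := w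
  obtain ⟨y0, ρ0, κ0⟩ := w0
  have h1 : P (y, ρ0, κ0) := vec_induct (fun y => P (y, ρ0, κ0)) y0 h0
    (fun x x' hd hx => hs _ _ (by simp [dW, hd]) hx) y
  have h2 : P (y, ρ, κ0) := vec_induct (fun ρ => P (y, ρ, κ0)) ρ0 h1
    (fun x x' hd hx => hs _ _ (by simp [dW, hd]) hx) ρ
  exact vec_induct (fun κ => P (y, ρ, κ)) κ0 h2
    (fun x x' hd hx => hs _ _ (by simp [dW, hd]) hx) κ

namespace Dat

variable (C : Dat m a s)

/-- the closure -/
def Cl : Set (V m a s) := closure (GV m a s) 3 C.A0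

lemma Cl_of_three {v u1 u2 u3 : V m a s} (h1 : (GV m a s).Adj v u1) (h2 : (GV m a s).Adj v u2)
    (h3 : (GV m a s).Adj v u3) (g1 : u1 ∈ C.Cl) (g2 : u2 ∈ C.Cl) (g3 : u3 ∈ C.Cl) (n12 : u1 ≠ u2)
    (n13 : u1 ≠ u3) (n23 : u2 ≠ u3) : v ∈ C.Cl :=
  closed_closure (three_le (S := (GV m a s).neighborSet v ∩ C.Cl) ⟨h1, g1⟩ ⟨h2, g2⟩ ⟨h3, g3⟩
    n12 n13 n23)

lemma A0_Cl {v : V m a s} (h : v ∈ C.A0) : v ∈ C.Cl := subset_closure' h

lemma mG_Cl {v : V m a s} (h : C.mG v) : v ∈ C.Cl := C.A0_Cl (Or.inl h)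

lemma adj_h {w w' : W m a s} (ℓ : Fin 8 → Z m) (h : dW w w' = 1) :
    (GV m a s).Adj (w, ℓ) (w', ℓ) := adj_iff.2 (Or.inl ⟨h, rfl⟩)

lemma adj_v (w : W m a s) {ℓ ℓ' : Fin 8 → Z m} (h : hammingDist ℓ ℓ' = 1) :
    (GV m a s).Adj (w, ℓ) (w, ℓ') := adj_iff.2 (Or.inr ⟨rfl, h⟩)

lemma adj_f (w : W m a s) (b : Fin 8 → ZMod 2) (k : Fin 8) :
    (GV m a s).Adj (w, io b) (w, io (b + ee k)) := adj_v w (io_flip b k)

/-- infection moves along the path -/
lemma pstep {u : V m a s} {w : W m a s} {b : Fin 8 → ZMod 2} (hadj : (GV m a s).Adj (w, io b) u)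
    (hu : u ∈ C.Cl) (hPu : C.mP u) (hPv : C.mP (w, io b)) : (w, io b) ∈ C.Cl := by
  have hg := fun cE => tab_guard ⟨enc b, enc_lt _⟩ _ _ _ (C.mP_io.1 hPv) cE
  have g0 : C.mG (w, io (b + ee 0)) := by
    rw [mG_io, enc_flip]
    exact (hg _).1
  have g1 : C.mG (w, io (b + ee 1)) := by
    rw [mG_io, enc_flip]
    exact (hg _).2
  have hn : ∀ (w' : W m a s) (b' : Fin 8 → ZMod 2), C.mG (w', io b') → u ≠ (w', io b') := by
    rintro w' b' hv rfl
    exact C.not_mG_of_mP hPu w' hv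
  refine C.Cl_of_three hadj (adj_f w b 0) (adj_f w b 1) hu (C.mG_Cl g0) (C.mG_Cl g1)
    (hn _ _ g0) (hn _ _ g1) ?_
  intro h
  have h1 := io_inj (Prod.mk.inj h).2
  have h2 := congrFun h1 0
  simp at h2

/-- layers -/
def q1 : Fin 8 → ZMod 2 := 0 + ee 2
def q2 : Fin 8 → ZMod 2 := 0 + ee 2 + ee 3
def q3 : Fin 8 → ZMod 2 := 0 + ee 2 + ee 3 + ee 4
def q4 : Fin 8 → ZMod 2 := 0 + ee 2 + ee 3 + ee 4 + ee 5
def q5 : Fin 8 → ZMod 2 := 0 + ee 2 + ee 3 + ee 4 + ee 5 + ee 6

lemma mP_q0 {w : W m a s} (h : C.X0 w) : C.mP (w, io 0) := by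
  have e : enc 0 = 0 := by decide
  have hb : C.b0 w = true := by simpa [b0] using h
  rw [mP_io, e, hb]
  rfl

lemma mP_q1 {w : W m a s} (h : C.X1 w) : C.mP (w, io q1) := by
  have e : enc q1 = 4 := by decide
  have hb : C.b1 w = true := by simpa [b1] using h
  rw [mP_io, e, hb]
  unfold memP
  simp [isP0, isP1, isP3]

lemma mP_q2 {w : W m a s} (h : C.X1 w) : C.mP (w, io q2) := by
  have e : enc q2 = 12 := by decide
  have hb : C.b1 w = true := by simpa [b1] using h
  rw [mP_io, e, hb]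
  unfold memP
  simp [isP0, isP1, isP3]

lemma mP_q3 {w : W m a s} (h : C.X3 w) : C.mP (w, io q3) := by
  have e : enc q3 = 28 := by decide
  have hb : C.b3 w = true := by simpa [b3] using h
  rw [mP_io, e, hb]
  unfold memP
  simp [isP0, isP1, isP3]

/-- main vertex of the fibre `y` -/
def mv (y : Fin a → Z m) (κ : Fin s → Z m) : W m a s := (y, κ + C.h y, κ)

lemma R_mv (y : Fin a → Z m) (κ : Fin s → Z m) : C.R (C.mv y κ) = κ := by
  simp [R, mv]

lemma X0_mv (y : Fin a → Z m) {t : ℕ} (ht : t < C.M) : C.X0 (C.mv y (C.u t)) :=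
  ⟨t, ht, rfl, Or.inl (C.R_mv _ _)⟩

lemma run_step (y : Fin a → Z m) (t : ℕ) (ht : t + 1 < C.M) :
    ((C.mv y (C.u t), io 0) ∈ C.Cl ↔ (C.mv y (C.u (t + 1)), (io 0 : Fin 8 → Z m)) ∈ C.Cl) := by
  set wi : W m a s := (y, C.u (t + 1) + C.h y, C.u t) with hwi
  have hRi : C.R wi = C.u (t + 1) := by simp [R, hwi]
  have hXi : C.X0 wi := ⟨t, by omega, rfl, Or.inr ⟨ht, hRi⟩⟩
  have m1 := C.mP_q0 (C.X0_mv y (t := t) (by omega))
  have m2 := C.mP_q0 hXi
  have m3 := C.mP_q0 (C.X0_mv y (t := t + 1) (by omega))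
  have d1 : dW wi (C.mv y (C.u t)) = 1 := by
    simp only [dW, hwi, mv, hammingDist_self, hd_add_right, zero_add, add_zero]
    rw [hammingDist_comm]
    exact C.uadj t ht
  have d2 : dW wi (C.mv y (C.u (t + 1))) = 1 := by
    simp only [dW, hwi, mv, hammingDist_self, zero_add]
    exact C.uadj t ht
  constructor
  · intro h
    have h1 := C.pstep (adj_h (io 0) d1) h m1 m2
    exact C.pstep (adj_h (io 0) (by rw [dW_comm]; exact d2)) h1 m2 m3
  · intro h
    have h1 := C.pstep (adj_h (io 0) d2) h m3 m2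
    exact C.pstep (adj_h (io 0) (by rw [dW_comm]; exact d1)) h1 m2 m1

lemma run_all (y : Fin a → Z m) {t t' : ℕ} (ht : t < C.M) (ht' : t' < C.M)
    (h : (C.mv y (C.u t), (io 0 : Fin 8 → Z m)) ∈ C.Cl) :
    (C.mv y (C.u t'), (io 0 : Fin 8 → Z m)) ∈ C.Cl := by
  have key : ∀ t, t < C.M → ((C.mv y (C.u 0), io 0) ∈ C.Cl ↔
      (C.mv y (C.u t), (io 0 : Fin 8 → Z m)) ∈ C.Cl) := by
    intro t
    induction t with
    | zero => intro _; rfl
    | succ t ih =>
      intro ht
      rw [ih (by omega)]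
      exact C.run_step y t ht
  exact (key t' ht').1 ((key t ht).2 h)

lemma up' (w : W m a s) (hw : C.X1 w) (h : (w, (io 0 : Fin 8 → Z m)) ∈ C.Cl) :
    (w, (io q3 : Fin 8 → Z m)) ∈ C.Cl := by
  have m0 := C.mP_q0 (C.X1_X0 hw)
  have m1 := C.mP_q1 hw
  have m2 := C.mP_q2 hw
  have m3 := C.mP_q3 (C.X1_X3 hw)
  have h1 := C.pstep (adj_f w 0 2).symm h m0 m1
  have h2 := C.pstep (adj_f w q1 3).symm h1 m1 m2
  exact C.pstep (adj_f w q2 4).symm h2 m2 m3

lemma down (w : W m a s) (hw : C.X1 w) (h : (w, (io q3 : Fin 8 → Z m)) ∈ C.Cl) :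
    (w, (io 0 : Fin 8 → Z m)) ∈ C.Cl := by
  have m0 := C.mP_q0 (C.X1_X0 hw)
  have m1 := C.mP_q1 hw
  have m2 := C.mP_q2 hw
  have m3 := C.mP_q3 (C.X1_X3 hw)
  have h1 := C.pstep (adj_f w q2 4) h m3 m2
  have h2 := C.pstep (adj_f w q1 3) h1 m2 m1
  exact C.pstep (adj_f w 0 2) h2 m1 m0

lemma zout_X1 (y : Fin a → Z m) : C.X1 (C.mv y 0) := Or.inl ⟨C.R_mv y 0, rfl⟩

lemma next_fibre {y y' : Fin a → Z m} (hy : C.rk y' = C.rk y + 1)
    (h : (C.mv y 0, (io 0 : Fin 8 → Z m)) ∈ C.Cl) :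
    (C.mv y' (C.h y - C.h y'), (io 0 : Fin 8 → Z m)) ∈ C.Cl := by
  have h1 := C.up' _ (C.zout_X1 y) h
  have hR : ∀ κ : Fin s → Z m, C.R ((y, C.h y, κ) : W m a s) = 0 := by intro κ; simp [R]
  have hX : ∀ k, C.X3 ((y, C.h y, pre (C.δ y) k) : W m a s) := fun k => Or.inl ⟨hR _, k, rfl⟩
  have hlad : ∀ k, (((y, C.h y, pre (C.δ y) k) : W m a s), (io q3 : Fin 8 → Z m)) ∈ C.Cl := by
    intro k
    induction k with
    | zero =>
      rw [pre_zero]
      have e : C.mv y 0 = (y, C.h y, 0) := by simp only [mv, zero_add]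
      rw [← e]; exact h1
    | succ k ih =>
      rcases pre_succ (C.δ y) k with e | e
      · rw [e]; exact ih
      · refine C.pstep (adj_h _ ?_) ih (C.mP_q3 (hX k)) (C.mP_q3 (hX (k + 1)))
        simp only [dW, hammingDist_self, zero_add]
        rw [hammingDist_comm]
        exact e
  have h2 := hlad s
  rw [pre_full] at h2
  have hX2 := hX s
  rw [pre_full] at hX2
  have hmv : C.mv y' (C.h y - C.h y') = (y', C.h y, C.h y - C.h y') := by
    simp only [mv, sub_add_cancel]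
  have h3 : C.X1 (C.mv y' (C.h y - C.h y')) := by
    right
    exact ⟨y, hy, rfl, C.R_mv _ _⟩
  have h4 : (C.mv y' (C.h y - C.h y'), (io q3 : Fin 8 → Z m)) ∈ C.Cl := by
    refine C.pstep (adj_h _ ?_) h2 (C.mP_q3 hX2) (C.mP_q3 (C.X1_X3 h3))
    rw [hmv, C.δ_eq hy]
    simp only [dW, hammingDist_self, add_zero]
    rw [hammingDist_comm]
    exact C.adj_of_rk hy
  exact C.down _ h3 h4

lemma all_fibres (t : ℕ) (ht : t < C.N) :
    (C.mv (C.yy t) 0, (io 0 : Fin 8 → Z m)) ∈ C.Cl := by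
  have hM := C.hM1
  induction t with
  | zero =>
    have h := C.run_all (C.yy 0) (t := C.M - 1) (t' := 0) (by omega) (by omega) (by
      apply C.A0_Cl
      right; right
      rfl)
    rwa [C.u0] at h
  | succ t ih =>
    have hrk : C.rk (C.yy (t + 1)) = C.rk (C.yy t) + 1 := by
      rw [C.rk_yy ht, C.rk_yy (by omega)]
    have h := C.next_fibre hrk (ih (by omega))
    obtain ⟨j, -, hj, hu⟩ := C.htop _ _ (C.adj_of_rk hrk)
    rw [← hu] at h
    have h2 := C.run_all _ hj (t' := 0) (by omega) h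
    rwa [C.u0] at h2

lemma vend_eq : C.vend = C.mv (C.yy (C.N - 1)) 0 := by
  simp only [vend, mv, zero_add]

lemma isH_mG {w : W m a s} {b : Fin 8 → ZMod 2} (h : isH (enc b) = true) : C.mG (w, io b) := by
  rw [mG_io]
  unfold memG
  simp only [h, Bool.or_true]

lemma pair_ne {w : W m a s} {b b' : Fin 8 → ZMod 2} (h : b ≠ b') :
    ((w, io b) : V m a s) ≠ (w, io b') := fun he => h (io_inj (Prod.mk.inj he).2)

lemma trigger : ∀ w : W m a s, (w, (io q5 : Fin 8 → Z m)) ∈ C.Cl := by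
  have hN := C.hN
  have hend : (C.vend, (io q3 : Fin 8 → Z m)) ∈ C.Cl := by
    apply C.up' _ C.vend_X1
    rw [vend_eq]
    exact C.all_fibres _ (by omega)
  have h4 : (C.vend, (io q4 : Fin 8 → Z m)) ∈ C.Cl := by
    have hbE : C.bE C.vend = true := by simp [bE]
    have g0 : C.mG (C.vend, io (q4 + ee 0)) := by
      have e : enc (q4 + ee 0) = 61 := by decide
      rw [mG_io, e, hbE]
      unfold memG
      simp [isGE]
    have g1 : C.mG (C.vend, io (q4 + ee 1)) := by
      have e : enc (q4 + ee 1) = 62 := by decide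
      rw [mG_io, e, hbE]
      unfold memG
      simp [isGE]
    exact C.Cl_of_three (adj_f C.vend q3 5).symm (adj_f C.vend q4 0) (adj_f C.vend q4 1)
      hend (C.mG_Cl g0) (C.mG_Cl g1) (pair_ne (by decide)) (pair_ne (by decide))
      (pair_ne (by decide))
  have gH4 : ∀ w : W m a s, C.mG (w, io (q5 + ee 4)) := fun w => C.isH_mG (by decide +kernel)
  have gH7 : ∀ w : W m a s, C.mG (w, io (q5 + ee 7)) := fun w => C.isH_mG (by decide +kernel)
  have h5 : (C.vend, (io q5 : Fin 8 → Z m)) ∈ C.Cl :=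
    C.Cl_of_three (adj_f C.vend q4 6).symm (adj_f C.vend q5 4) (adj_f C.vend q5 7)
      h4 (C.mG_Cl (gH4 _)) (C.mG_Cl (gH7 _)) (pair_ne (by decide)) (pair_ne (by decide))
      (pair_ne (by decide))
  refine W_induct (fun w => (w, (io q5 : Fin 8 → Z m)) ∈ C.Cl) C.vend h5 ?_
  intro w w' hd hw
  have hne : w ≠ w' := by
    rintro rfl
    rw [dW_self] at hd
    omega
  refine C.Cl_of_three (adj_h _ (by rw [dW_comm]; exact hd)) (adj_f w' q5 4) (adj_f w' q5 7)
      hw (C.mG_Cl (gH4 _)) (C.mG_Cl (gH7 _)) ?_ ?_ (pair_ne (by decide))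
  · intro h
    exact hne (Prod.mk.inj h).1
  · intro h
    exact hne (Prod.mk.inj h).1

lemma bin_layers : ∀ (n : ℕ) (b : Fin 8 → ZMod 2), ord (enc b) = n → ∀ w : W m a s,
    (w, (io b : Fin 8 → Z m)) ∈ C.Cl := by
  intro n
  induction n using Nat.strong_induction_on with
  | _ n ih =>
    intro b hb w
    have ht := tab_ord ⟨enc b, enc_lt b⟩
    simp only at ht
    rcases Nat.eq_zero_or_pos (ord (enc b)) with h0 | h0
    · rcases ht.1 h0 with h | h
      · exact C.mG_Cl (C.isH_mG h)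
      · have := enc_124 b h
        have e : b = q5 := by rw [this]; unfold q5; rw [zero_add]
        rw [e]
        exact C.trigger w
    · have h1 := ht.2 h0
      have h2 : (fun k : Fin 8 => ((w, io (b + ee k)) : V m a s)) ''
          ((Finset.univ.filter (fun l : Fin 8 => ord (enc b ^^^ 2 ^ l.val) < ord (enc b)) :
            Finset (Fin 8)) : Set (Fin 8)) ⊆ (GV m a s).neighborSet (w, io b) ∩ C.Cl := by
        rintro _ ⟨k, hk, rfl⟩
        simp only [Finset.coe_filter, Finset.mem_univ, true_and] at hk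
        refine ⟨adj_f w b k, ?_⟩
        refine ih (ord (enc (b + ee k))) ?_ _ rfl w
        rw [← hb, enc_flip]
        exact hk
      have h3 := Set.ncard_le_ncard h2 (Set.toFinite _)
      rw [Set.ncard_image_of_injective _ (fun k k' h => Pool.Agent.TH479.BP.ee_injective
        (add_left_cancel (io_inj (Prod.mk.inj h).2))), Set.ncard_coe_finset] at h3
      exact closed_closure (h1.trans h3)

lemma bg_update {ℓ : Fin 8 → Z m} {l : Fin 8} {x : Z m} (hx : x = 0 ∨ x = 1) :
    bg (Function.update ℓ l x) = (bg ℓ).erase l := by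
  ext j
  rw [mem_bg, Finset.mem_erase, mem_bg]
  by_cases hj : j = l
  · subst hj
    simp only [Function.update_self, ne_eq, not_true_eq_false, false_and, iff_false, not_and, not_not]
    intro h
    rcases hx with hx | hx
    · exact absurd hx h
    · exact hx
  · simp [hj]

lemma adj_update (w : W m a s) {ℓ : Fin 8 → Z m} {l : Fin 8} {x : Z m} (h : ℓ l ≠ x) :
    (GV m a s).Adj (w, ℓ) (w, Function.update ℓ l x) := by
  apply adj_v
  rw [hd_one_iff]
  refine ⟨l, by simpa using h, ?_⟩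
  intro j hj
  simp [hj]

/-- a vertex with a big coordinate and a further neighbour in the closure -/
lemma big_step {ℓ : Fin 8 → Z m} {l : Fin 8} (hl : l ∈ bg ℓ)
    (hall : ∀ ℓ' : Fin 8 → Z m, bg ℓ' = (bg ℓ).erase l → ∀ w : W m a s, (w, ℓ') ∈ C.Cl)
    (w : W m a s) (u : V m a s) (hu : u ∈ C.Cl) (hadj : (GV m a s).Adj (w, ℓ) u)
    (hbg : l ∈ bg u.2) : (w, ℓ) ∈ C.Cl := by
  have hl' := mem_bg.1 hl
  refine C.Cl_of_three (adj_update w (l := l) (x := 0) hl'.1) (adj_update w (l := l) (x := 1) hl'.2)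
    hadj (hall _ (bg_update (Or.inl rfl)) w) (hall _ (bg_update (Or.inr rfl)) w) hu ?_ ?_ ?_
  · intro h
    have := congrFun (Prod.mk.inj h).2 l
    simp only [Function.update_self] at this
    exact zm01 this
  · rintro rfl
    rw [bg_update (Or.inl rfl)] at hbg
    exact Finset.notMem_erase l _ hbg
  · rintro rfl
    rw [bg_update (Or.inr rfl)] at hbg
    exact Finset.notMem_erase l _ hbg

lemma bin_all {ℓ : Fin 8 → Z m} (h : bg ℓ = ∅) (w : W m a s) : (w, ℓ) ∈ C.Cl := by
  rw [← io_bc h]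
  exact C.bin_layers _ _ rfl w

lemma one_big {ℓ : Fin 8 → Z m} {l : Fin 8} (h : bg ℓ = {l}) : ∀ w : W m a s, (w, ℓ) ∈ C.Cl := by
  have hall : ∀ ℓ0 : Fin 8 → Z m, bg ℓ0 = {l} → ∀ ℓ' : Fin 8 → Z m, bg ℓ' = (bg ℓ0).erase l →
      ∀ w : W m a s, (w, ℓ') ∈ C.Cl := by
    intro ℓ0 h0 ℓ' h' w
    apply C.bin_all
    rw [h', h0]
    simp
  have hseed : ∀ w : W m a s, (w, (sl l : Fin 8 → Z m)) ∈ C.Cl := by
    refine W_induct _ C.wst (C.A0_Cl (Or.inr (Or.inl ⟨rfl, l, rfl⟩))) ?_
    intro w w' hd hw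
    exact C.big_step (l := l) (by rw [bg_sl]; exact Finset.mem_singleton_self l)
      (hall _ (bg_sl l)) w' _ hw (adj_h _ (by rw [dW_comm]; exact hd))
      (by rw [bg_sl]; exact Finset.mem_singleton_self l)
  have key : bg ℓ = {l} → ∀ w : W m a s, (w, ℓ) ∈ C.Cl := by
    refine vec_chain (fun ℓ => bg ℓ = {l} → ∀ w : W m a s, (w, ℓ) ∈ C.Cl) (sl l) ℓ
      (fun _ => hseed) ?_
    intro z z' hz hz' hd hP hb w
    have hbg : ∀ z : Fin 8 → Z m, (∀ i, z i = (sl l : Fin 8 → Z m) i ∨ z i = ℓ i) → bg z = {l} := by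
      intro z hz
      ext i
      rw [Finset.mem_singleton]
      constructor
      · intro hi
        rcases hz i with h1 | h1
        · rw [mem_bg, h1, ← mem_bg, bg_sl, Finset.mem_singleton] at hi
          exact hi
        · rw [mem_bg, h1, ← mem_bg, h, Finset.mem_singleton] at hi
          exact hi
      · rintro rfl
        rcases hz i with h1 | h1
        · rw [mem_bg, h1, ← mem_bg, bg_sl]
          exact Finset.mem_singleton_self i
        · rw [mem_bg, h1, ← mem_bg, h]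
          exact Finset.mem_singleton_self i
    have hbz := hbg z hz
    exact C.big_step (l := l) (by rw [hb]; exact Finset.mem_singleton_self l)
      (hall _ hb) w _ (hP hbz w) (adj_v w (by rw [hammingDist_comm]; exact hd))
      (by rw [hbz]; exact Finset.mem_singleton_self l)
  exact key h

lemma all_layers : ∀ (n : ℕ) (ℓ : Fin 8 → Z m), (bg ℓ).card = n → ∀ w : W m a s, (w, ℓ) ∈ C.Cl := by
  intro n
  induction n using Nat.strong_induction_on with
  | _ n ih =>
    intro ℓ hℓ w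
    rcases Nat.lt_or_ge 1 n with hn | hn
    · obtain ⟨l, hl, k, hk, hne⟩ := Finset.one_lt_card.1 (by omega : 1 < (bg ℓ).card)
      have hk' := mem_bg.1 hk
      refine C.big_step hl ?_ w (w, Function.update ℓ k 0) ?_ (adj_update w hk'.1) ?_
      · intro ℓ' h' w'
        refine ih _ ?_ ℓ' rfl w'
        rw [h', Finset.card_erase_of_mem hl]
        omega
      · refine ih _ ?_ _ rfl w
        rw [bg_update (Or.inl rfl), Finset.card_erase_of_mem hk]
        omega
      · simp only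
        rw [bg_update (Or.inl rfl), Finset.mem_erase]
        exact ⟨hne, hl⟩
    · rcases Nat.eq_zero_or_pos n with h0 | h0
      · exact C.bin_all (Finset.card_eq_zero.1 (by omega)) w
      · obtain ⟨l, hl⟩ := Finset.card_eq_one.1 (by omega : (bg ℓ).card = 1)
        exact C.one_big hl w

theorem percolates : closure (GV m a s) 3 C.A0 = Set.univ := by
  rw [Set.eq_univ_iff_forall]
  rintro ⟨w, ℓ⟩
  exact C.all_layers _ ℓ rfl w

theorem slow : stage (GV m a s) 3 C.A0 (C.N * C.M0) ≠ Set.univ := by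
  intro h
  have h1 : (C.vend, (io q4 : Fin 8 → Z m)) ∈ stage (GV m a s) 3 C.A0 (C.N * C.M0) := by
    rw [h]; trivial
  have h2 := le_of_mem_stage (G := GV m a s) (r := 3) (A := C.A0) C.ff C.ff_A0 C.cert _ _ h1
  have e : enc q4 = 60 := by decide
  have g1 : ¬ C.mG (C.vend, io q4) := by
    rw [mG_io, e]
    unfold memG
    have : isH 60 = false := by decide +kernel
    rw [this]
    simp [isG0, isG1, isG3, isGE]
  have g2 : ¬ C.mP (C.vend, io q4) := by
    rw [mP_io, e]
    unfold memP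
    simp [isP0, isP1, isP3]
  rw [C.ff_out g1 C.not_mS_io g2] at h2
  omega

end Dat

end Pool.Agent.Helper52.BPq
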