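import Pool.Agent.Helper52.BPq.Data

set_option autoImplicit false

/-!
The sets `X0`, `X1`, `X3` in the Hamming graph of triples `(y, ρ, κ)`.
-/

namespace Pool.Agent.Helper52.BPq

open Set

/-- triples `(y, ρ, κ)` -/
abbrev W (m a s : ℕ) := (Fin a → Z m) × (Fin s → Z m) × (Fin s → Z m)

variable {m a s : ℕ}

/-- Hamming distance of triples -/
def dW (w w' : W m a s) : ℕ :=
  hammingDist w.1 w'.1 + hammingDist w.2.1 w'.2.1 + hammingDist w.2.2 w'.2.2

lemma dW_comm (w w' : W m a s) : dW w w' = dW w' w := by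
  unfold dW
  rw [hammingDist_comm w.1, hammingDist_comm w.2.1, hammingDist_comm w.2.2]

lemma dW_self (w : W m a s) : dW w w = 0 := by
  simp [dW]

lemma dW_eq_zero {w w' : W m a s} : dW w w' = 0 ↔ w = w' := by
  constructor
  · intro h
    unfold dW at h
    have h1 : hammingDist w.1 w'.1 = 0 := by omega
    have h2 : hammingDist w.2.1 w'.2.1 = 0 := by omega
    have h3 : hammingDist w.2.2 w'.2.2 = 0 := by omega
    rw [hammingDist_eq_zero] at h1 h2 h3
    exact Prod.ext h1 (Prod.ext h2 h3)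
  · rintro rfl
    exact dW_self _

lemma dW_triangle (w w' w'' : W m a s) : dW w w'' ≤ dW w w' + dW w' w'' := by
  unfold dW
  have h1 := hammingDist_triangle w.1 w'.1 w''.1
  have h2 := hammingDist_triangle w.2.1 w'.2.1 w''.2.1
  have h3 := hammingDist_triangle w.2.2 w'.2.2 w''.2.2
  omega

lemma dW_one {w w' : W m a s} (h : dW w w' = 1) :
    (hammingDist w.1 w'.1 = 1 ∧ w.2.1 = w'.2.1 ∧ w.2.2 = w'.2.2) ∨
    (w.1 = w'.1 ∧ hammingDist w.2.1 w'.2.1 = 1 ∧ w.2.2 = w'.2.2) ∨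
    (w.1 = w'.1 ∧ w.2.1 = w'.2.1 ∧ hammingDist w.2.2 w'.2.2 = 1) := by
  unfold dW at h
  rw [← hammingDist_eq_zero (x := w.1), ← hammingDist_eq_zero (x := w.2.1),
    ← hammingDist_eq_zero (x := w.2.2)]
  omega

lemma ncard_le_two_of_cover {ι : Type*} [Finite ι] (S S1 S2 : Set ι) (h : ∀ k ∈ S, k ∈ S1 ∨ k ∈ S2)
    (h1 : S1.Subsingleton) (h2 : S2.Subsingleton) : S.ncard ≤ 2 := by
  have e1 : S ⊆ S1 ∪ S2 := fun k hk => h k hk
  have e2 := Set.ncard_le_ncard e1 (Set.toFinite _)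
  have e3 := Set.ncard_union_le S1 S2
  have e4 := Set.ncard_le_one_iff_subsingleton.2 h1
  have e5 := Set.ncard_le_one_iff_subsingleton.2 h2
  omega

/-- prefixes -/
def pre {s : ℕ} (δ : Fin s → Z m) (k : ℕ) : Fin s → Z m := fun j => if j.val < k then δ j else 0

lemma pre_zero {s : ℕ} (δ : Fin s → Z m) : pre δ 0 = 0 := by
  funext j; simp [pre]

lemma pre_full {s : ℕ} (δ : Fin s → Z m) : pre δ s = δ := by
  funext j; simp [pre]

lemma pre_succ {s : ℕ} (δ : Fin s → Z m) (k : ℕ) :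
    pre δ (k + 1) = pre δ k ∨ hammingDist (pre δ k) (pre δ (k + 1)) = 1 := by
  by_cases hk : k < s
  · by_cases h0 : δ ⟨k, hk⟩ = 0
    · left
      funext j
      by_cases hj : j.val = k
      · have : j = ⟨k, hk⟩ := Fin.ext hj
        subst this
        simp [pre, h0]
      · have : j.val < k + 1 ↔ j.val < k := by omega
        simp [pre, this]
    · right
      rw [hd_one_iff]
      refine ⟨⟨k, hk⟩, ?_, ?_⟩
      · simp only [pre, lt_irrefl, if_false, Nat.lt_succ_self, if_true]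
        exact fun h => h0 h.symm
      · intro j hj
        have hj' : j.val ≠ k := fun h => hj (Fin.ext h)
        have : j.val < k + 1 ↔ j.val < k := by omega
        simp [pre, this]
  · left
    funext j
    have := j.isLt
    have h1 : j.val < k + 1 := by omega
    have h2 : j.val < k := by omega
    simp [pre, h1, h2]

lemma pre_hits {s : ℕ} (δ κ : Fin s → Z m) :
    {κ' | hammingDist κ κ' = 1 ∧ ∃ k, κ' = pre δ k}.ncard ≤ 2 := by
  -- the position of the difference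
  refine ncard_le_two_of_cover _
    {κ' | ∃ k, κ' = pre δ k ∧ ∃ i : Fin s, i.val < k ∧ κ i ≠ pre δ k i ∧ ∀ j, j ≠ i → κ j = pre δ k j}
    {κ' | ∃ k, κ' = pre δ k ∧ ∃ i : Fin s, k ≤ i.val ∧ κ i ≠ pre δ k i ∧ ∀ j, j ≠ i → κ j = pre δ k j}
    ?_ ?_ ?_
  · rintro κ' ⟨h1, k, rfl⟩
    obtain ⟨i, h2, h3⟩ := hd_one h1
    by_cases hik : i.val < k
    · left; exact ⟨k, rfl, i, hik, h2, h3⟩
    · right; exact ⟨k, rfl, i, by omega, h2, h3⟩
  · have key : ∀ k k', k ≤ k' → (∃ i : Fin s, i.val < k ∧ κ i ≠ pre δ k i ∧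
        ∀ j, j ≠ i → κ j = pre δ k j) → (∃ i : Fin s, i.val < k' ∧ κ i ≠ pre δ k' i ∧
        ∀ j, j ≠ i → κ j = pre δ k' j) → pre δ k = pre δ k' := by
      rintro k k' hkk ⟨i, hi, hi1, hi2⟩ ⟨i', hi', hi1', hi2'⟩
      -- the two differences agree
      have hii : i = i' := by
        by_contra hne
        apply hi1
        rw [hi2' i hne]
        have h1 : i.val < k' := by omega
        simp only [pre, hi, h1, if_true]
      subst hii
      funext j
      by_cases hj : j = i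
      · subst hj
        have h1 : j.val < k' := by omega
        simp only [pre, hi, h1, if_true]
      · rw [← hi2 j hj, ← hi2' j hj]
    rintro _ ⟨k, rfl, hk⟩ _ ⟨k', rfl, hk'⟩
    rcases le_total k k' with h | h
    · exact key k k' h hk hk'
    · exact (key k' k h hk' hk).symm
  · have key : ∀ k k', k ≤ k' → (∃ i : Fin s, k ≤ i.val ∧ κ i ≠ pre δ k i ∧
        ∀ j, j ≠ i → κ j = pre δ k j) → (∃ i : Fin s, k' ≤ i.val ∧ κ i ≠ pre δ k' i ∧
        ∀ j, j ≠ i → κ j = pre δ k' j) → pre δ k = pre δ k' := by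
      rintro k k' hkk ⟨i, hi, hi1, hi2⟩ ⟨i', hi', hi1', hi2'⟩
      have hii : i = i' := by
        by_contra hne
        apply hi1'
        rw [hi2 i' (fun h => hne h.symm)]
        have h1 : ¬ i'.val < k' := by omega
        have h2 : ¬ i'.val < k := by omega
        simp only [pre, h1, h2, if_false]
      subst hii
      funext j
      by_cases hj : j = i
      · subst hj
        have h1 : ¬ j.val < k' := by omega
        have h2 : ¬ j.val < k := by omega
        simp only [pre, h1, h2, if_false]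
      · rw [← hi2 j hj, ← hi2' j hj]
    rintro _ ⟨k, rfl, hk⟩ _ ⟨k', rfl, hk'⟩
    rcases le_total k k' with h | h
    · exact key k k' h hk hk'
    · exact (key k' k h hk' hk).symm

namespace Dat

variable (C : Dat m a s)

/-- rank on the Hamiltonian path -/
noncomputable def rk (y : Fin a → Z m) : ℕ := (C.ysurj y).choose

lemma rk_lt (y : Fin a → Z m) : C.rk y < C.N := (C.ysurj y).choose_spec.1
lemma yy_rk (y : Fin a → Z m) : C.yy (C.rk y) = y := (C.ysurj y).choose_spec.2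
lemma rk_yy {t : ℕ} (ht : t < C.N) : C.rk (C.yy t) = t :=
  C.yinj _ _ (C.rk_lt _) ht (C.yy_rk _)
lemma rk_inj {y y' : Fin a → Z m} (h : C.rk y = C.rk y') : y = y' := by
  rw [← C.yy_rk y, ← C.yy_rk y', h]

lemma adj_of_rk {y y' : Fin a → Z m} (h : C.rk y' = C.rk y + 1) : hammingDist y y' = 1 := by
  have h1 := C.yadj (C.rk y) (by have := C.rk_lt y'; omega)
  rw [← h, C.yy_rk, C.yy_rk] at h1
  exact h1

lemma four_le {y y' : Fin a → Z m} (h : hammingDist y y' = 1) :
    4 ≤ hammingNorm (C.h y - C.h y') := by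
  rw [← hd_eq_norm]; exact C.hnorm _ _ h

/-- reduced `ρ` -/
def R (w : W m a s) : Fin s → Z m := w.2.1 - C.h w.1

open Classical in
/-- the syndrome step after `y` -/
noncomputable def δ (y : Fin a → Z m) : Fin s → Z m :=
  if C.rk y + 1 < C.N then C.h y - C.h (C.yy (C.rk y + 1)) else 0

lemma δ_eq {y y' : Fin a → Z m} (h : C.rk y' = C.rk y + 1) : C.δ y = C.h y - C.h y' := by
  unfold δ
  rw [if_pos (by rw [← h]; exact C.rk_lt y'), ← h, C.yy_rk]

/-- main runs -/
def X0 (w : W m a s) : Prop :=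
  ∃ t < C.M, w.2.2 = C.u t ∧ (C.R w = C.u t ∨ (t + 1 < C.M ∧ C.R w = C.u (t + 1)))

/-- entry points -/
def PB (w : W m a s) : Prop :=
  ∃ y', C.rk w.1 = C.rk y' + 1 ∧ w.2.2 = C.h y' - C.h w.1 ∧ C.R w = w.2.2

/-- junctions -/
def X1 (w : W m a s) : Prop := (C.R w = 0 ∧ w.2.2 = 0) ∨ C.PB w

/-- ladders -/
def X3 (w : W m a s) : Prop := (C.R w = 0 ∧ ∃ k, w.2.2 = pre (C.δ w.1) k) ∨ C.PB w

lemma PB_norm {w : W m a s} (h : C.PB w) : 4 ≤ hammingNorm w.2.2 := by
  obtain ⟨y', h1, h2, -⟩ := h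
  rw [h2]
  exact C.four_le (C.adj_of_rk h1)

lemma PB_ne {w : W m a s} (h : C.PB w) : C.R w ≠ 0 := by
  intro h0
  have h1 := C.PB_norm h
  obtain ⟨y', h2, h3, h4⟩ := h
  rw [← h4, h0] at h1
  simp at h1

lemma X1_X0 {w : W m a s} (hw : C.X1 w) : C.X0 w := by
  rcases hw with ⟨h1, h2⟩ | ⟨y', h1, h2, h3⟩
  · refine ⟨0, by have := C.hM1; omega, ?_, Or.inl ?_⟩
    · rw [C.u0, h2]
    · rw [C.u0, h1]
  · obtain ⟨j, -, hj, hu⟩ := C.htop _ _ (C.adj_of_rk h1)
    refine ⟨j, hj, ?_, Or.inl ?_⟩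
    · rw [hu, h2]
    · rw [h3, hu, h2]

lemma X1_X3 {w : W m a s} (hw : C.X1 w) : C.X3 w := by
  rcases hw with ⟨h1, h2⟩ | h
  · exact Or.inl ⟨h1, 0, by rw [h2, pre_zero]⟩
  · exact Or.inr h

lemma X0_near {w : W m a s} (h : C.X0 w) : hammingDist (C.R w) w.2.2 ≤ 1 := by
  obtain ⟨t, ht, h1, h2 | ⟨h2, h3⟩⟩ := h
  · rw [h1, h2, hammingDist_self]; omega
  · rw [h1, h3, hammingDist_comm, C.uadj t h2]

lemma R_Y {w w' : W m a s} (h1 : hammingDist w.1 w'.1 = 1) (h2 : w.2.1 = w'.2.1) :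
    4 ≤ hammingDist (C.R w) (C.R w') := by
  unfold R
  rw [h2, hd_sub_left]
  exact C.hnorm _ _ h1

lemma R_R {w w' : W m a s} (h1 : w.1 = w'.1) :
    hammingDist (C.R w) (C.R w') = hammingDist w.2.1 w'.2.1 := by
  unfold R
  rw [h1, hd_sub_right]

lemma R_K {w w' : W m a s} (h1 : w.1 = w'.1) (h2 : w.2.1 = w'.2.1) : C.R w = C.R w' := by
  unfold R
  rw [h1, h2]

lemma ext_R {w w' : W m a s} (h1 : w.1 = w'.1) (h2 : C.R w = C.R w') (h3 : w.2.2 = w'.2.2) :
    w = w' := by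
  refine Prod.ext h1 (Prod.ext ?_ h3)
  unfold R at h2
  rw [h1] at h2
  exact sub_left_injective h2

/-- two `Y`-neighbours with the same reduced `ρ` are equal -/
lemma Y_unique {w w' w'' : W m a s} (h1 : hammingDist w.1 w'.1 = 1) (h2 : w.2.1 = w'.2.1)
    (h3 : w.2.2 = w'.2.2) (h1' : hammingDist w.1 w''.1 = 1) (h2' : w.2.1 = w''.2.1)
    (h3' : w.2.2 = w''.2.2) (h : C.R w' = C.R w'') : w' = w'' := by
  refine C.ext_R ?_ h (h3.symm.trans h3')
  refine C.hloc _ _ _ h1 h1' ?_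
  unfold R at h
  rw [← h2, ← h2'] at h
  exact sub_right_injective h

lemma hits0 (w : W m a s) : {w' | dW w w' = 1 ∧ C.X0 w'}.ncard ≤ 2 := by
  by_cases hY : ∃ w1 : W m a s, hammingDist w.1 w1.1 = 1 ∧ w.2.1 = w1.2.1 ∧ w.2.2 = w1.2.2 ∧ C.X0 w1
  · obtain ⟨w1, a1, a2, a3, hX⟩ := hY
    have far : 3 ≤ hammingDist (C.R w) w.2.2 := by
      have h1 := C.R_Y a1 a2
      have h2 := C.X0_near hX
      rw [← a3] at h2
      have h3 := hammingDist_triangle (C.R w) w.2.2 (C.R w1)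
      rw [hammingDist_comm (C.R w1)] at h2
      omega
    obtain ⟨t, ht, hk, -⟩ := hX
    refine ncard_le_two_of_cover _
      {w' | hammingDist w.1 w'.1 = 1 ∧ w.2.1 = w'.2.1 ∧ w.2.2 = w'.2.2 ∧ C.R w' = C.u t}
      {w' | hammingDist w.1 w'.1 = 1 ∧ w.2.1 = w'.2.1 ∧ w.2.2 = w'.2.2 ∧ C.R w' = C.u (t + 1)} ?_ ?_ ?_
    · rintro w' ⟨h1, h2⟩
      have h2n := C.X0_near h2
      rcases dW_one h1 with ⟨g1, g2, g3⟩ | ⟨g1, g2, g3⟩ | ⟨g1, g2, g3⟩
      · obtain ⟨t', ht', hk', hr'⟩ := h2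
        have : t' = t := C.uinj _ _ ht' ht (by rw [← hk', ← g3, a3, hk])
        subst this
        rcases hr' with hr' | ⟨-, hr'⟩
        · left; exact ⟨g1, g2, g3, hr'⟩
        · right; exact ⟨g1, g2, g3, hr'⟩
      · exfalso
        have h3 := C.R_R g1
        have h4 := hammingDist_triangle (C.R w) (C.R w') w.2.2
        rw [← g3] at h2n
        omega
      · exfalso
        have h3 := C.R_K g1 g2
        rw [← h3] at h2n
        have h4 := hammingDist_triangle (C.R w) w'.2.2 w.2.2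
        rw [hammingDist_comm w'.2.2] at h4
        omega
    · rintro w' ⟨g1, g2, g3, g4⟩ w'' ⟨g1', g2', g3', g4'⟩
      exact C.Y_unique g1 g2 g3 g1' g2' g3' (g4.trans g4'.symm)
    · rintro w' ⟨g1, g2, g3, g4⟩ w'' ⟨g1', g2', g3', g4'⟩
      exact C.Y_unique g1 g2 g3 g1' g2' g3' (g4.trans g4'.symm)
  · have hnoY : ∀ w' : W m a s, dW w w' = 1 → C.X0 w' →
        (w.1 = w'.1 ∧ hammingDist w.2.1 w'.2.1 = 1 ∧ w.2.2 = w'.2.2) ∨
        (w.1 = w'.1 ∧ w.2.1 = w'.2.1 ∧ hammingDist w.2.2 w'.2.2 = 1) := by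
      intro w' h1 h2
      rcases dW_one h1 with ⟨g1, g2, g3⟩ | h | h
      · exact absurd ⟨w', g1, g2, g3, h2⟩ hY
      · exact Or.inl h
      · exact Or.inr h
    by_cases hκ : ∃ t < C.M, w.2.2 = C.u t
    · obtain ⟨t, ht, hκ⟩ := hκ
      by_cases hr : ∃ j < C.M, C.R w = C.u j
      · obtain ⟨j, hj, hr⟩ := hr
        refine ncard_le_two_of_cover _
          {w' | w.1 = w'.1 ∧ hammingDist w.2.1 w'.2.1 = 1 ∧ w.2.2 = w'.2.2 ∧ C.X0 w'}
          {w' | w.1 = w'.1 ∧ w.2.1 = w'.2.1 ∧ hammingDist w.2.2 w'.2.2 = 1 ∧ C.X0 w'} ?_ ?_ ?_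
        · rintro w' ⟨h1, h2⟩
          rcases hnoY w' h1 h2 with ⟨g1, g2, g3⟩ | ⟨g1, g2, g3⟩
          · left; exact ⟨g1, g2, g3, h2⟩
          · right; exact ⟨g1, g2, g3, h2⟩
        · rintro w' ⟨g1, g2, g3, t', ht', hk', hr'⟩ w'' ⟨g1', g2', g3', t'', ht'', hk'', hr''⟩
          have e1 : t' = t := C.uinj _ _ ht' ht (by rw [← hk', ← g3, hκ])
          have e2 : t'' = t := C.uinj _ _ ht'' ht (by rw [← hk'', ← g3', hκ])
          subst e1
          subst e2
          have d1 := C.R_R g1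
          have d2 := C.R_R g1'
          rw [g2, hr] at d1
          rw [g2', hr] at d2
          have yy : w'.1 = w''.1 := g1.symm.trans g1'
          have kk : w'.2.2 = w''.2.2 := g3.symm.trans g3'
          rcases hr' with hr' | ⟨hM, hr'⟩ <;> rcases hr'' with hr'' | ⟨hM', hr''⟩
          · exact C.ext_R yy (hr'.trans hr''.symm) kk
          · exfalso
            rw [hr'] at d1
            rw [hr''] at d2
            exact C.uthin j t'' (t'' + 1) hj ht hM' d1 (C.uadj _ hM') d2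
          · exfalso
            rw [hr'] at d1
            rw [hr''] at d2
            exact C.uthin j t'' (t'' + 1) hj ht hM d2 (C.uadj _ hM) d1
          · exact C.ext_R yy (hr'.trans hr''.symm) kk
        · rintro w' ⟨g1, g2, g3, t', ht', hk', hr'⟩ w'' ⟨g1', g2', g3', t'', ht'', hk'', hr''⟩
          have yy : w'.1 = w''.1 := g1.symm.trans g1'
          have rr : w'.2.1 = w''.2.1 := g2.symm.trans g2'
          rw [← C.R_K g1 g2, hr] at hr'
          rw [← C.R_K g1' g2', hr] at hr''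
          rw [hκ, hk'] at g3
          rw [hκ, hk''] at g3'
          have c1 : j = t' ∨ (t' + 1 < C.M ∧ j = t' + 1) := by
            rcases hr' with h | ⟨h, h'⟩
            · exact Or.inl (C.uinj _ _ hj ht' h)
            · exact Or.inr ⟨h, C.uinj _ _ hj h h'⟩
          have c2 : j = t'' ∨ (t'' + 1 < C.M ∧ j = t'' + 1) := by
            rcases hr'' with h | ⟨h, h'⟩
            · exact Or.inl (C.uinj _ _ hj ht'' h)
            · exact Or.inr ⟨h, C.uinj _ _ hj h h'⟩
          have c3 : t' = t'' := by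
            by_contra hne
            rcases c1 with c1 | ⟨c1', c1⟩ <;> rcases c2 with c2 | ⟨c2', c2⟩
            · omega
            · have e : t' = t'' + 1 := by omega
              subst e
              exact C.uthin t t'' (t'' + 1) ht ht'' c2' g3' (C.uadj _ c2') g3
            · have e : t'' = t' + 1 := by omega
              subst e
              exact C.uthin t t' (t' + 1) ht ht' c1' g3 (C.uadj _ c1') g3'
            · omega
          refine Prod.ext yy (Prod.ext rr ?_)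
          rw [hk', hk'', c3]
      · refine ncard_le_two_of_cover _
          {w' | w.1 = w'.1 ∧ w.2.2 = w'.2.2 ∧ C.R w' = C.u t}
          {w' | w.1 = w'.1 ∧ w.2.2 = w'.2.2 ∧ C.R w' = C.u (t + 1)} ?_ ?_ ?_
        · rintro w' ⟨h1, h2⟩
          rcases hnoY w' h1 h2 with ⟨g1, g2, g3⟩ | ⟨g1, g2, g3⟩
          · obtain ⟨t', ht', hk', hr'⟩ := h2
            have e1 : t' = t := C.uinj _ _ ht' ht (by rw [← hk', ← g3, hκ])
            subst e1
            rcases hr' with hr' | ⟨-, hr'⟩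
            · left; exact ⟨g1, g3, hr'⟩
            · right; exact ⟨g1, g3, hr'⟩
          · exfalso
            obtain ⟨t', ht', hk', hr'⟩ := h2
            rw [← C.R_K g1 g2] at hr'
            rcases hr' with hr' | ⟨h, hr'⟩
            · exact hr ⟨t', ht', hr'⟩
            · exact hr ⟨t' + 1, h, hr'⟩
        · rintro w' ⟨g1, g2, g3⟩ w'' ⟨g1', g2', g3'⟩
          exact C.ext_R (g1.symm.trans g1') (g3.trans g3'.symm) (g2.symm.trans g2')
        · rintro w' ⟨g1, g2, g3⟩ w'' ⟨g1', g2', g3'⟩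
          exact C.ext_R (g1.symm.trans g1') (g3.trans g3'.symm) (g2.symm.trans g2')
    · refine ncard_le_two_of_cover _
          {w' | w.1 = w'.1 ∧ w.2.1 = w'.2.1 ∧ w'.2.2 = C.R w}
          {w' | w.1 = w'.1 ∧ w.2.1 = w'.2.1 ∧ ∃ t, t + 1 < C.M ∧ w'.2.2 = C.u t ∧ C.R w = C.u (t + 1)}
          ?_ ?_ ?_
      · rintro w' ⟨h1, h2⟩
        rcases hnoY w' h1 h2 with ⟨g1, g2, g3⟩ | ⟨g1, g2, g3⟩
        · exfalso
          obtain ⟨t', ht', hk', hr'⟩ := h2
          exact hκ ⟨t', ht', by rw [g3, hk']⟩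
        · obtain ⟨t', ht', hk', hr'⟩ := h2
          rw [← C.R_K g1 g2] at hr'
          rcases hr' with hr' | ⟨h, hr'⟩
          · left; exact ⟨g1, g2, by rw [hk', hr']⟩
          · right; exact ⟨g1, g2, t', h, hk', hr'⟩
      · rintro w' ⟨g1, g2, g3⟩ w'' ⟨g1', g2', g3'⟩
        exact Prod.ext (g1.symm.trans g1') (Prod.ext (g2.symm.trans g2') (g3.trans g3'.symm))
      · rintro w' ⟨g1, g2, t, ht, g3, g4⟩ w'' ⟨g1', g2', t', ht', g3', g4'⟩
        have e := C.uinj _ _ ht ht' (g4.symm.trans g4')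
        have e' : t = t' := by omega
        subst e'
        exact Prod.ext (g1.symm.trans g1') (Prod.ext (g2.symm.trans g2') (g3.trans g3'.symm))

lemma X1_R {w : W m a s} (h : C.X1 w) : C.R w = w.2.2 := by
  rcases h with ⟨h1, h2⟩ | ⟨y', h1, h2, h3⟩
  · rw [h1, h2]
  · exact h3

lemma h_eq (w : W m a s) : C.h w.1 = w.2.1 - C.R w := by
  unfold R; abel

lemma hd_sub_le {n : ℕ} (x x' z z' : Fin n → Z m) :
    hammingDist (x - z) (x' - z') ≤ hammingDist x x' + hammingDist z z' := by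
  have h := hammingDist_triangle (x - z) (x' - z) (x' - z')
  rwa [hd_sub_right, hd_sub_left] at h

lemma sub1 (w : W m a s) : {w' | dW w w' = 1 ∧ C.X1 w'}.Subsingleton := by
  rintro w1 ⟨h1, hX1⟩ w2 ⟨h2, hX2⟩
  have hd : dW w1 w2 ≤ 2 := by
    have := dW_triangle w1 w w2
    rw [dW_comm w1 w] at this
    omega
  have r1 := C.X1_R hX1
  have r2 := C.X1_R hX2
  have hh : hammingDist (C.h w1.1) (C.h w2.1) ≤ hammingDist w1.2.1 w2.2.1 +
      hammingDist w1.2.2 w2.2.2 := by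
    rw [C.h_eq w1, C.h_eq w2, r1, r2]
    exact hd_sub_le _ _ _ _
  by_cases hy : w1.1 = w2.1
  · by_cases hκ : w1.2.2 = w2.2.2
    · exact C.ext_R hy (by rw [r1, r2, hκ]) hκ
    · exfalso
      have hd2 : hammingDist w1.2.2 w2.2.2 ≤ 2 := by unfold dW at hd; omega
      rcases hX1 with ⟨g1, g2⟩ | hP <;> rcases hX2 with ⟨g1', g2'⟩ | hP'
      · exact hκ (g2.trans g2'.symm)
      · have := C.PB_norm hP'
        rw [g2, hammingDist_zero_left] at hd2
        omega
      · have := C.PB_norm hP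
        rw [g2', hammingDist_zero_right] at hd2
        omega
      · obtain ⟨y1, e1, e2, -⟩ := hP
        obtain ⟨y2, e1', e2', -⟩ := hP'
        have : y1 = y2 := C.rk_inj (by rw [hy] at e1; omega)
        subst this
        rw [hy] at e2
        exact hκ (e2.trans e2'.symm)
  · have hy1 : 1 ≤ hammingDist w1.1 w2.1 := by
      rw [Nat.one_le_iff_ne_zero, Ne, hammingDist_eq_zero]
      exact hy
    exfalso
    by_cases hy2 : hammingDist w1.1 w2.1 = 1
    · have h4 := C.hnorm _ _ hy2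
      unfold dW at hd
      omega
    · have e1 : hammingDist w1.2.1 w2.2.1 + hammingDist w1.2.2 w2.2.2 = 0 := by
        unfold dW at hd
        omega
      rw [e1, Nat.le_zero, hammingDist_eq_zero] at hh
      have t1 := hammingDist_triangle w1.1 w.1 w2.1
      rw [hammingDist_comm w1.1 w.1] at t1
      have u1 : hammingDist w.1 w1.1 ≤ 1 := by unfold dW at h1; omega
      have u2 : hammingDist w.1 w2.1 ≤ 1 := by unfold dW at h2; omega
      exact hy (C.hloc w.1 _ _ (by omega) (by omega) hh)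

lemma hits1 (w : W m a s) : {w' | dW w w' = 1 ∧ C.X1 w'}.ncard ≤ 1 :=
  Set.ncard_le_one_iff_subsingleton.2 (C.sub1 w)

lemma hits3 (w : W m a s) (hw : ¬ C.X3 w) : {w' | dW w w' = 1 ∧ C.X3 w'}.ncard ≤ 2 := by
  by_cases hR : C.R w = 0
  · have hsub : {w' | dW w w' = 1 ∧ C.X3 w'} ⊆ (fun κ' => ((w.1, w.2.1, κ') : W m a s)) ''
        {κ' | hammingDist w.2.2 κ' = 1 ∧ ∃ k, κ' = pre (C.δ w.1) k} := by
      rintro w' ⟨h1, h2⟩
      rcases dW_one h1 with ⟨g1, g2, g3⟩ | ⟨g1, g2, g3⟩ | ⟨g1, g2, g3⟩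
      · exfalso
        have h4 := C.R_Y g1 g2
        rcases h2 with ⟨h2, -⟩ | ⟨y', e1, e2, e3⟩
        · rw [h2, hR, hammingDist_self] at h4
          omega
        · -- `ρ = h y`, so `R w' = h y - h y'`
          have e4 : C.R w' = C.h w.1 - C.h w'.1 := by
            have : w.2.1 = C.h w.1 := sub_eq_zero.1 hR
            unfold R
            rw [← g2, this]
          rw [e3, e2] at e4
          have e5 : C.h y' = C.h w.1 := sub_left_injective e4
          have e6 : w.1 = y' := (C.hloc w'.1 _ _ (by rw [hammingDist_comm]; exact C.adj_of_rk e1)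
            (by rw [hammingDist_comm]; exact g1) e5).symm
          apply hw
          left
          refine ⟨hR, s, ?_⟩
          rw [pre_full, C.δ_eq (y' := w'.1) (by rw [e6]; exact e1), g3, e2, e6]
      · exfalso
        have h4 := C.R_R g1
        rw [hR, g2] at h4
        rcases h2 with ⟨h2, -⟩ | h2
        · rw [h2, hammingDist_self] at h4
          omega
        · have h5 := C.PB_norm h2
          obtain ⟨y', e1, e2, e3⟩ := h2
          rw [e3, hammingDist_zero_left] at h4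
          omega
      · have h4 := C.R_K g1 g2
        rcases h2 with ⟨-, k, hk⟩ | h2
        · refine ⟨w'.2.2, ⟨g3, k, ?_⟩, ?_⟩
          · rw [g1]; exact hk
          · exact Prod.ext g1 (Prod.ext g2 rfl)
        · exact absurd (h4.symm.trans hR) (C.PB_ne h2)
    refine (Set.ncard_le_ncard hsub (Set.toFinite _)).trans ?_
    exact (Set.ncard_image_le (Set.toFinite _)).trans (pre_hits _ _)
  · refine ncard_le_two_of_cover _
      {w' | dW w w' = 1 ∧ C.R w' = 0} {w' | dW w w' = 1 ∧ C.X1 w'} ?_ ?_ (C.sub1 w)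
    · rintro w' ⟨h1, ⟨h2, -⟩ | h2⟩
      · left; exact ⟨h1, h2⟩
      · right; exact ⟨h1, Or.inr h2⟩
    · rintro w1 ⟨h1, r1⟩ w2 ⟨h2, r2⟩
      rcases dW_one h1 with ⟨g1, g2, g3⟩ | ⟨g1, g2, g3⟩ | ⟨g1, g2, g3⟩
      · rcases dW_one h2 with ⟨g1', g2', g3'⟩ | ⟨g1', g2', g3'⟩ | ⟨g1', g2', g3'⟩
        · exact C.Y_unique g1 g2 g3 g1' g2' g3' (r1.trans r2.symm)
        · exfalso
          have h4 := C.R_Y g1 g2
          have h5 := C.R_R g1'
          rw [r1] at h4
          rw [r2] at h5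
          omega
        · exact absurd ((C.R_K g1' g2').trans r2) hR
      · rcases dW_one h2 with ⟨g1', g2', g3'⟩ | ⟨g1', g2', g3'⟩ | ⟨g1', g2', g3'⟩
        · exfalso
          have h4 := C.R_Y g1' g2'
          have h5 := C.R_R g1
          rw [r2] at h4
          rw [r1] at h5
          omega
        · exact C.ext_R (g1.symm.trans g1') (r1.trans r2.symm) (g3.symm.trans g3')
        · exact absurd ((C.R_K g1' g2').trans r2) hR
      · exact absurd ((C.R_K g1 g2).trans r1) hR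

open Classical in
/-- index on the path `u` -/
noncomputable def idx (κ : Fin s → Z m) : ℕ := if h : ∃ t < C.M, C.u t = κ then h.choose else 0

lemma idx_u {t : ℕ} (ht : t < C.M) : C.idx (C.u t) = t := by
  have h : ∃ t' < C.M, C.u t' = C.u t := ⟨t, ht, rfl⟩
  unfold idx
  rw [dif_pos h]
  exact C.uinj _ _ h.choose_spec.1 ht h.choose_spec.2

/-- time on the main run -/
noncomputable def f0 (w : W m a s) : ℕ := C.rk w.1 * C.M0 + (C.M0 - C.idx w.2.2)

open Classical in
/-- time on the ladders -/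
noncomputable def f3 (w : W m a s) : ℕ :=
  if C.R w = 0 then (C.rk w.1 + 1) * C.M0 else C.rk w.1 * C.M0

lemma f0_lip {w w' : W m a s} (hd : dW w w' = 1) (h1 : C.X0 w) (h2 : C.X0 w') :
    C.f0 w' < C.f0 w + 2 := by
  rcases dW_one hd with ⟨g1, g2, g3⟩ | ⟨g1, g2, g3⟩ | ⟨g1, g2, g3⟩
  · exfalso
    have e1 := C.R_Y g1 g2
    obtain ⟨t, ht, hk, hr⟩ := h1
    obtain ⟨t', ht', hk', hr'⟩ := h2
    have : t' = t := C.uinj _ _ ht' ht (by rw [← hk', ← g3, hk])
    subst this
    have e2 : hammingDist (C.R w) (C.R w') ≤ 1 := by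
      rcases hr with hr | ⟨hM, hr⟩ <;> rcases hr' with hr' | ⟨hM', hr'⟩ <;> rw [hr, hr']
      · rw [hammingDist_self]; omega
      · rw [C.uadj _ hM']
      · rw [hammingDist_comm, C.uadj _ hM]
      · rw [hammingDist_self]; omega
    omega
  · unfold f0
    rw [g1, g3]
    omega
  · obtain ⟨t, ht, hk, hr⟩ := h1
    obtain ⟨t', ht', hk', hr'⟩ := h2
    have e := C.R_K g1 g2
    have key : t ≤ t' + 1 ∧ t' ≤ t + 1 := by
      rcases hr with hr | ⟨hM, hr⟩ <;> rcases hr' with hr' | ⟨hM', hr'⟩ <;> rw [hr, hr'] at e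
      · have := C.uinj _ _ ht ht' e; omega
      · have := C.uinj _ _ ht hM' e; omega
      · have := C.uinj _ _ hM ht' e; omega
      · have := C.uinj _ _ hM hM' e; omega
    unfold f0
    rw [g1, hk, hk', C.idx_u ht, C.idx_u ht']
    omega

lemma f3_lip {w w' : W m a s} (hd : dW w w' = 1) (h1 : C.X3 w) (h2 : C.X3 w') :
    C.f3 w' < C.f3 w + 2 := by
  rcases dW_one hd with ⟨g1, g2, g3⟩ | ⟨g1, g2, g3⟩ | ⟨g1, g2, g3⟩
  · have e1 := C.R_Y g1 g2
    -- a ladder top below an entry point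
    have aux : ∀ v v' : W m a s, hammingDist v.1 v'.1 = 1 → v.2.1 = v'.2.1 → C.R v = 0 →
        C.PB v' → C.f3 v = C.f3 v' := by
      intro v v' k1 k2 k3 k4
      have k5 := C.PB_ne k4
      obtain ⟨y', e1, e2, e3⟩ := k4
      have e4 : C.R v' = C.h v.1 - C.h v'.1 := by
        have : v.2.1 = C.h v.1 := sub_eq_zero.1 k3
        unfold R
        rw [← k2, this]
      rw [e3, e2] at e4
      have e5 : C.h y' = C.h v.1 := sub_left_injective e4
      have e6 : v.1 = y' := (C.hloc v'.1 _ _ (by rw [hammingDist_comm]; exact C.adj_of_rk e1)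
        (by rw [hammingDist_comm]; exact k1) e5).symm
      unfold f3
      rw [if_pos k3, if_neg k5, e1, e6]
    rcases h1 with ⟨h1, -⟩ | h1 <;> rcases h2 with ⟨h2, -⟩ | h2
    · rw [h1, h2, hammingDist_self] at e1
      omega
    · rw [aux w w' g1 g2 h1 h2]; omega
    · rw [aux w' w (by rw [hammingDist_comm]; exact g1) g2.symm h2 h1]; omega
    · exfalso
      obtain ⟨-, -, -, r1⟩ := h1
      obtain ⟨-, -, -, r2⟩ := h2
      rw [r1, r2, g3, hammingDist_self] at e1
      omega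
  · exfalso
    have e1 := C.R_R g1
    rw [g2] at e1
    rcases h1 with ⟨h1, -⟩ | h1 <;> rcases h2 with ⟨h2, -⟩ | h2
    · rw [h1, h2, hammingDist_self] at e1
      omega
    · have h5 := C.PB_norm h2
      obtain ⟨-, -, -, r2⟩ := h2
      rw [h1, r2, hammingDist_zero_left] at e1
      omega
    · have h5 := C.PB_norm h1
      obtain ⟨-, -, -, r1⟩ := h1
      rw [h2, r1, hammingDist_zero_right] at e1
      omega
    · obtain ⟨-, -, -, r1⟩ := h1
      obtain ⟨-, -, -, r2⟩ := h2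
      rw [r1, r2, g3, hammingDist_self] at e1
      omega
  · have e := C.R_K g1 g2
    unfold f3
    rw [e, g1]
    omega

lemma f_agree {w : W m a s} (h : C.X1 w) : C.f0 w = C.f3 w := by
  rcases h with ⟨h1, h2⟩ | h
  · unfold f0 f3
    rw [if_pos h1, h2, ← C.u0, C.idx_u (by have := C.hM1; omega)]
    rw [Nat.sub_zero]
    ring
  · have h0 := C.PB_ne h
    obtain ⟨y', h1, h2, h3⟩ := h
    obtain ⟨j, hj0, hj, hu⟩ := C.htop _ _ (C.adj_of_rk h1)
    unfold f0 f3
    rw [if_neg h0, h2, ← hu, C.idx_u hj]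
    omega

lemma f0_le (w : W m a s) : C.f0 w ≤ C.N * C.M0 := by
  have h1 := C.rk_lt w.1
  unfold f0
  have h2 : (C.rk w.1 + 1) * C.M0 ≤ C.N * C.M0 := Nat.mul_le_mul_right _ h1
  have h3 : (C.rk w.1 + 1) * C.M0 = C.rk w.1 * C.M0 + C.M0 := by ring
  rw [h3] at h2
  exact le_trans (Nat.add_le_add_left (Nat.sub_le _ _) _) h2

lemma f3_le (w : W m a s) : C.f3 w ≤ C.N * C.M0 := by
  have h1 := C.rk_lt w.1
  have h2 : (C.rk w.1 + 1) * C.M0 ≤ C.N * C.M0 := Nat.mul_le_mul_right _ h1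
  have h3 : (C.rk w.1 + 1) * C.M0 = C.rk w.1 * C.M0 + C.M0 := by ring
  unfold f3
  split_ifs
  · exact h2
  · rw [h3] at h2
    exact le_trans (Nat.le_add_right _ _) h2

end Dat

end Pool.Agent.Helper52.BPq
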